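import Pool.Agent.TH744.Chain.Seq

set_option autoImplicit false
set_option linter.unusedSectionVars false

/-!
# Components of the complement of the set of fixed points
-/

namespace Pool.Agent.TH744.Chain

open Pool.Agent.TH744.LS (Mono inv_fix iso iso_apply)

section J
variable {G X : Type*} [Group G] [LinearOrder X] [MulAction G X] {α β : X}
variable {y : ℕ → G} {c : G} {s : ℕ → Bool} {P Q : ℕ → ℤ}

/-- `c a⁻¹` is conjugate to `a⁻¹`. -/
theorem pair_conj {τ : Bool} {a b : G} (h : Pair τ c a b) (ha : Fx α β a) (hb : Fx α β b) :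
    ∃ g, Fx α β g ∧ c * a⁻¹ = g * a⁻¹ * g⁻¹ := by
  cases τ
  · exact ⟨b, hb, by rw [show c = b * a⁻¹ * b⁻¹ * a from h]; group⟩
  · exact ⟨a * b⁻¹, ha.mul hb.inv, by rw [show c = a * b⁻¹ * a⁻¹ * b from h]; group⟩

/-- `a⁻¹ c` is conjugate to `a⁻¹`. -/
theorem pair_conj' {τ : Bool} {a b : G} (h : Pair τ c a b) (ha : Fx α β a) (hb : Fx α β b) :
    ∃ g, Fx α β g ∧ a⁻¹ * c = g * a⁻¹ * g⁻¹ := by
  cases τ
  · exact ⟨a⁻¹ * b, ha.inv.mul hb, by rw [show c = b * a⁻¹ * b⁻¹ * a from h]; group⟩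
  · exact ⟨b⁻¹, hb.inv, by rw [show c = a * b⁻¹ * a⁻¹ * b from h]; group⟩

theorem up_conj_inv (hm : Mono G X) {a g : G} (hg : Fx α β g) (h : Up α β (g * a⁻¹ * g⁻¹)) :
    Dn α β a := by
  intro v v1 v2
  have w := hg.mem hm v1 v2
  have h1 := h _ w.1 w.2
  rw [mul_smul, mul_smul, inv_smul_smul, hm.lt] at h1
  have h2 := (hm.lt a).mpr h1
  rwa [smul_inv_smul] at h2

/-- After half a twist the direction is reversed. -/
theorem up_half (hm : Mono G X) (h : Sq y c s P Q) (hy : ∀ i, Fx α β (y i)) {n : ℕ}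
    (hclo : (∀ i, y (i + n) = c * (y i)⁻¹) ∨ (∀ i, y (i + n) = (y i)⁻¹ * c)) {i : ℕ}
    (hu : Up α β (y (i + n))) : Dn α β (y i) := by
  rcases hclo with hd | hd
  · obtain ⟨g, hg, e⟩ := pair_conj (h.pair i) (hy i) (hy (i + 1))
    rw [hd, e] at hu
    exact up_conj_inv hm hg hu
  · obtain ⟨g, hg, e⟩ := pair_conj' (h.pair i) (hy i) (hy (i + 1))
    rw [hd, e] at hu
    exact up_conj_inv hm hg hu

/-- There is no weak vertex. -/
theorem fw_false (hm : Mono G X) (h : Sq y c s P Q) {n : ℕ} (hn : 1 ≤ n) (hclo : Clo n y c)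
    (hy : ∀ i, Fx α β (y i)) (hc : Fx α β c) {v0 : X} (hv1 : α < v0) (hv2 : v0 < β)
    {i : ℕ} (h1 : Up α β (y (i + 1)))
    (h0 : (s i = s (i + 1) ∧ Dn α β (y i)) ∨ (s i ≠ s (i + 1) ∧ Up α β (y i))) : False := by
  have hfw := fw hm h hy hc h1 h0
  have grow : ∀ v, α < v → v < β → ∀ m,
      CB (s (i + 1 + m)) v (y (i + 1 + m)) (y (i + 1 + m + 1)) := by
    intro v v1 v2 m
    refine growB hm h ?_ m
    have w := (hy (i + 2)).mem hm v1 v2
    exact ⟨(h1 v v1 v2).le, (hfw v v1 v2).le, (h1 v v1 v2).trans (hfw v v1 v2),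
      fun _ => (h1 _ w.1 w.2).le⟩
  obtain ⟨k, rfl⟩ := Nat.exists_eq_add_of_le' hn
  rcases hclo with hd | hd
  · have up : ∀ m, y (i + 2) • v0 ≤ y (i + 2 + m) • v0 := by
      intro m
      induction m with
      | zero => exact le_rfl
      | succ m ih =>
        refine ih.trans ?_
        have := (grow v0 hv1 hv2 (m + 1)).c2
        have e1 : i + 1 + (m + 1) = i + 2 + m := by ring
        rw [e1] at this
        exact this
    have h2 := up k
    have e : i + 2 + k = i + 1 + (k + 1) := by ring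
    rw [e, hd] at h2
    exact absurd (hfw v0 hv1 hv2) (not_lt.mpr h2)
  · have hup : Up α β (y (i + 1 + (k + 1))) := fun v v1 v2 => (grow v v1 v2 k).c0
    have := up_half hm h hy hd hup
    exact absurd (h1 v0 hv1 hv2) (not_lt.mpr (this v0 hv1 hv2).le)

/-- The directions of the meridians are determined by the signs of the slopes. -/
theorem signs (hm : Mono G X) (h : Sq y c s P Q) {n : ℕ} (hn : 1 ≤ n) (hclo : Clo n y c)
    (hy : ∀ i, Fx α β (y i)) (hc : Fx α β c) {v0 : X} (hv1 : α < v0) (hv2 : v0 < β)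
    {σ : ℕ → Bool} (hσ : ∀ i, (σ i = true → Up α β (y i)) ∧ (σ i = false → Dn α β (y i)))
    (i : ℕ) : (s i = s (i + 1) ↔ σ i = σ (i + 1)) := by
  by_contra hcon
  have hyd : ∀ i, Fx (X := Xᵒᵈ) β α (y i) := fun i => ⟨(hy i).2, (hy i).1⟩
  have hcd : Fx (X := Xᵒᵈ) β α c := ⟨hc.2, hc.1⟩
  rcases hb : σ (i + 1) with _ | _
  · have h1 : Up (X := Xᵒᵈ) β α (y (i + 1)) := fun v w1 w2 => (hσ (i + 1)).2 hb v w2 w1
    refine fw_false (X := Xᵒᵈ) hm.dual h hn hclo hyd hcd (v0 := v0) hv2 hv1 h1 ?_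
    rcases ha : σ i with _ | _
    · right
      refine ⟨fun hs => hcon ⟨fun _ => by rw [ha, hb], fun _ => hs⟩, ?_⟩
      exact fun v w1 w2 => (hσ i).2 ha v w2 w1
    · left
      refine ⟨?_, fun v w1 w2 => (hσ i).1 ha v w2 w1⟩
      by_contra hs
      exact hcon ⟨fun h' => absurd h' hs, fun h' => by rw [ha, hb] at h'; simp at h'⟩
  · have h1 : Up α β (y (i + 1)) := (hσ (i + 1)).1 hb
    refine fw_false hm h hn hclo hy hc hv1 hv2 h1 ?_
    rcases ha : σ i with _ | _
    · left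
      refine ⟨?_, (hσ i).2 ha⟩
      by_contra hs
      exact hcon ⟨fun h' => absurd h' hs, fun h' => by rw [ha, hb] at h'; simp at h'⟩
    · right
      exact ⟨fun hs => hcon ⟨fun _ => by rw [ha, hb], fun _ => hs⟩, (hσ i).1 ha⟩

/-- No component if the sequence closes up with half a twist. -/
theorem no_comp_half (hm : Mono G X) (h : Sq y c s P Q) {n : ℕ} (hn : 1 ≤ n)
    (hclo : (∀ i, y (i + n) = c * (y i)⁻¹) ∨ (∀ i, y (i + n) = (y i)⁻¹ * c))
    (hs : ∀ i, s (i + n) = s i)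
    (hy : ∀ i, Fx α β (y i)) (hc : Fx α β c) {v0 : X} (hv1 : α < v0) (hv2 : v0 < β)
    {σ : ℕ → Bool} (hσ : ∀ i, (σ i = true → Up α β (y i)) ∧ (σ i = false → Dn α β (y i))) :
    False := by
  have key := signs hm h hn (Or.inr hclo) hy hc hv1 hv2 hσ
  have const : ∀ m, (s 0 = s m ↔ σ 0 = σ m) := by
    intro m
    induction m with
    | zero => simp
    | succ m ih =>
      have := key m
      cases h1 : s 0 <;> cases h2 : s m <;> cases h3 : s (m + 1) <;> cases h4 : σ 0 <;>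
        cases h5 : σ m <;> cases h6 : σ (m + 1) <;> simp_all
  have hn0 : s 0 = s n := by have := hs 0; rw [zero_add] at this; exact this.symm
  have hσn : σ 0 = σ n := (const n).mp hn0
  have e : (0 : ℕ) + n = n := zero_add n
  rcases hb : σ n with _ | _
  · -- `y n` moves down, so `y 0` moves up
    have h1 : Up (X := Xᵒᵈ) β α (y (0 + n)) := by
      rw [e]; exact fun v w1 w2 => (hσ n).2 hb v w2 w1
    have h2 := up_half (X := Xᵒᵈ) hm.dual h (fun i => ⟨(hy i).2, (hy i).1⟩) hclo h1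
    have h3 : v0 < y 0 • v0 := h2 v0 hv2 hv1
    have h4 := (hσ 0).2 (hσn.trans hb) v0 hv1 hv2
    exact absurd h3 (not_lt.mpr h4.le)
  · have h1 : Up α β (y (0 + n)) := by rw [e]; exact (hσ n).1 hb
    have h2 := up_half hm h hy hclo h1
    have h3 := h2 v0 hv1 hv2
    have h4 := (hσ 0).1 (hσn.trans hb) v0 hv1 hv2
    exact absurd h4 (not_lt.mpr h3.le)

end J

section comp
variable {G X : Type*} [Group G] [CompleteLinearOrder X] [MulAction G X]

open Pool.Agent.W705.Borr in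
/-- A point that is moved lies in a component of the complement of the set of fixed points, and
the directions are constant on it. -/
theorem exists_comp (hm : Mono G X) {y : ℕ → G} {c : G}
    (hfix : ∀ (f : X) (j : ℕ), y j • f = f → c • f = f ∧ ∀ i, y i • f = f)
    {v0 : X} (h0 : y 0 • v0 ≠ v0) :
    ∃ α β : X, α < v0 ∧ v0 < β ∧ (∀ i, Fx α β (y i)) ∧ Fx α β c ∧
      ∃ σ : ℕ → Bool, ∀ i, (σ i = true → Up α β (y i)) ∧ (σ i = false → Dn α β (y i)) := by
  classical
  set x := y 0 with hx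
  set A : Set X := {f | f ≤ v0 ∧ x • f = f} with hA
  set B : Set X := {f | v0 ≤ f ∧ x • f = f} with hB
  set α := sSup A with hα
  set β := sInf B with hβ
  have xα : x • α = α := by
    apply le_antisymm
    · rw [← iso_apply hm, hα, (iso hm x).map_sSup]
      refine iSup₂_le fun v hv => ?_
      rw [iso_apply, hv.2]; exact le_sSup hv
    · refine sSup_le fun v hv => ?_
      rw [← hv.2]; exact (hm.le x).mpr (le_sSup hv)
  have xβ : x • β = β := by
    apply le_antisymm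
    · refine le_sInf fun v hv => ?_
      rw [← hv.2]; exact (hm.le x).mpr (sInf_le hv)
    · rw [← iso_apply hm, hβ, (iso hm x).map_sInf]
      refine le_iInf₂ fun v hv => ?_
      rw [iso_apply, hv.2]; exact sInf_le hv
  have hαs : α < v0 := by
    refine lt_of_le_of_ne (sSup_le fun v hv => hv.1) ?_
    intro e; rw [e] at xα; exact h0 xα
  have hsβ : v0 < β := by
    refine lt_of_le_of_ne (le_sInf fun v hv => hv.1) ?_
    intro e; rw [← e] at xβ; exact h0 xβ
  have hJx : ∀ v, α < v → v < β → x • v ≠ v := by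
    intro v h1 h2 e
    rcases le_total v v0 with h3 | h3
    · exact absurd (le_sSup (show v ∈ A from ⟨h3, e⟩)) (not_le.mpr h1)
    · exact absurd (sInf_le (show v ∈ B from ⟨h3, e⟩)) (not_le.mpr h2)
  have hJy : ∀ i v, α < v → v < β → y i • v ≠ v := fun i v v1 v2 e =>
    hJx v v1 v2 ((hfix v i e).2 0)
  have fα := hfix α 0 xα
  have fβ := hfix β 0 xβ
  have pos : ∀ g : G, (∀ v, α < v → v < β → g • v ≠ v) → v0 < g • v0 → Up α β g := by
    intro g hg hgs v v1 v2
    by_contra hcon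
    rw [not_lt] at hcon
    rcases le_total v v0 with h3 | h3
    · obtain ⟨t, t1, t2, t3⟩ := ivt (iso hm g) h3 hcon hgs
      exact hg t (lt_of_lt_of_le v1 t1) (t2.trans hsβ) t3
    · obtain ⟨t, t1, t2, t3⟩ := ivt' (iso hm g) h3 hcon hgs
      exact hg t (hαs.trans t1) (lt_of_le_of_lt t2 v2) t3
  have neg : ∀ g : G, (∀ v, α < v → v < β → g • v ≠ v) → g • v0 < v0 → Dn α β g := by
    intro g hg hgs
    have hgi : ∀ v, α < v → v < β → g⁻¹ • v ≠ v := by
      intro v v1 v2 e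
      exact hg v v1 v2 (by have := inv_fix e; rwa [inv_inv] at this)
    have h1 := pos g⁻¹ hgi (by rw [← hm.lt g, smul_inv_smul]; exact hgs)
    intro v v1 v2
    have := h1 v v1 v2
    rwa [← hm.lt g, smul_inv_smul] at this
  refine ⟨α, β, hαs, hsβ, fun i => ⟨fα.2 i, fβ.2 i⟩, ⟨fα.1, fβ.1⟩,
    fun i => decide (v0 < y i • v0), fun i => ⟨fun hi => ?_, fun hi => ?_⟩⟩
  · exact pos (y i) (hJy i) (by simpa using hi)
  · refine neg (y i) (hJy i) ?_
    have h1 : y i • v0 ≤ v0 := by simpa using hi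
    exact lt_of_le_of_ne h1 (hJy i v0 hαs hsβ)

/-- The action is trivial if the sequence closes up with half a twist. -/
theorem trivial_half (hm : Mono G X) {y : ℕ → G} {c : G} {s : ℕ → Bool} {P Q : ℕ → ℤ}
    (h : Sq y c s P Q) {n : ℕ} (hn : 1 ≤ n)
    (hclo : (∀ i, y (i + n) = c * (y i)⁻¹) ∨ (∀ i, y (i + n) = (y i)⁻¹ * c))
    (hs : ∀ i, s (i + n) = s i) (v : X) : c • v = v ∧ ∀ i, y i • v = v := by
  have hfix : ∀ (f : X) (j : ℕ), y j • f = f → c • f = f ∧ ∀ i, y i • f = f := fun f j hj =>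
    fix_all hm h hn (Or.inr hclo) hj
  by_cases h0 : y 0 • v = v
  · exact hfix v 0 h0
  · obtain ⟨α, β, v1, v2, hy, hc, σ, hσ⟩ := exists_comp hm hfix h0
    exact (no_comp_half hm h hn hclo hs hy hc v1 v2 hσ).elim

end comp

end Pool.Agent.TH744.Chain
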