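import Pool.Agent.TH744.LS.Dyn

set_option autoImplicit false
set_option linter.unusedSectionVars false

/-!
# Two consecutive meridians of a chain link and the growth conditions

`a, b` are the (normalised) meridians of two consecutive components of a chain link and `c` is
the class of a loop around both strands of a component.
-/

namespace Pool.Agent.TH744.Chain

open Pool.Agent.TH744.LS (Mono)

section alg
variable {G : Type*} [Group G]

/-- The relation between two consecutive meridians; it depends on the type of the pair. -/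
def Pair : Bool → G → G → G → Prop
  | true, c, a, b => c = a * b⁻¹ * a⁻¹ * b
  | false, c, a, b => c = b * a⁻¹ * b⁻¹ * a

/-- The element that is a positive power of the middle meridian, for a component between the
meridians `a` and `b'`. -/
def Mel : Bool → Bool → G → G → G → G
  | true, true, c, a, b' => b' * c⁻¹ * a
  | false, true, _, a, b' => b' * a⁻¹
  | true, false, _, a, b' => a⁻¹ * b'
  | false, false, c, a, b' => a * c⁻¹ * b'

variable {c a b b' : G}

theorem mel_tt (h : Pair true c a b) (h' : Pair true c b b') :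
    b' = Mel true true c a b' * b⁻¹ * a⁻¹ * b ∧ Commute b (Mel true true c a b') := by
  have h1 : c⁻¹ * a = b⁻¹ * a * b := by rw [show c = a * b⁻¹ * a⁻¹ * b from h]; group
  have h2 : b' * c⁻¹ = b * b' * b⁻¹ := by rw [show c = b * b'⁻¹ * b⁻¹ * b' from h']; group
  have h3 : Mel true true c a b' = b' * b⁻¹ * a * b := by
    show b' * c⁻¹ * a = _
    rw [mul_assoc, h1]; group
  have h4 : Mel true true c a b' = b * b' * b⁻¹ * a := by
    show b' * c⁻¹ * a = _
    rw [h2]
  refine ⟨by rw [h3]; group, ?_⟩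
  show b * Mel true true c a b' = Mel true true c a b' * b
  rw [h3]
  calc b * (b' * b⁻¹ * a * b) = (b * b' * b⁻¹ * a) * b := by group
    _ = (b' * b⁻¹ * a * b) * b := by rw [← h4, h3]

theorem mel_ff (h : Pair false c a b) (h' : Pair false c b b') :
    b' = b * a⁻¹ * b⁻¹ * Mel false false c a b' ∧ Commute b (Mel false false c a b') := by
  have h1 : a * c⁻¹ = b * a * b⁻¹ := by rw [show c = b * a⁻¹ * b⁻¹ * a from h]; group
  have h2 : c⁻¹ * b' = b⁻¹ * b' * b := by rw [show c = b' * b⁻¹ * b'⁻¹ * b from h']; group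
  have h3 : Mel false false c a b' = b * a * b⁻¹ * b' := by
    show a * c⁻¹ * b' = _
    rw [h1]
  have h4 : Mel false false c a b' = a * b⁻¹ * b' * b := by
    show a * c⁻¹ * b' = _
    rw [mul_assoc, h2]; group
  refine ⟨by rw [h3]; group, ?_⟩
  show b * Mel false false c a b' = Mel false false c a b' * b
  rw [h3]
  calc b * (b * a * b⁻¹ * b') = b * (a * b⁻¹ * b' * b) := by rw [← h4, h3]
    _ = b * a * b⁻¹ * b' * b := by group

theorem mel_ft (h : Pair false c a b) (h' : Pair true c b b') :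
    b' = Mel false true c a b' * a ∧ Commute b (Mel false true c a b') := by
  have h1 : a⁻¹ * b⁻¹ * a = b'⁻¹ * b⁻¹ * b' := by
    have h2 : b * (a⁻¹ * b⁻¹ * a) = b * (b'⁻¹ * b⁻¹ * b') := by
      calc b * (a⁻¹ * b⁻¹ * a) = c := by rw [show c = b * a⁻¹ * b⁻¹ * a from h]; group
        _ = b * (b'⁻¹ * b⁻¹ * b') := by rw [show c = b * b'⁻¹ * b⁻¹ * b' from h']; group
    exact mul_left_cancel h2
  refine ⟨by show b' = b' * a⁻¹ * a; group, ?_⟩
  have h3 : Commute b⁻¹ (b' * a⁻¹) := by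
    show b⁻¹ * (b' * a⁻¹) = b' * a⁻¹ * b⁻¹
    calc b⁻¹ * (b' * a⁻¹) = b' * (b'⁻¹ * b⁻¹ * b') * a⁻¹ := by group
      _ = b' * (a⁻¹ * b⁻¹ * a) * a⁻¹ := by rw [h1]
      _ = b' * a⁻¹ * b⁻¹ := by group
  have := h3.inv_left
  rwa [inv_inv] at this

theorem mel_tf (h : Pair true c a b) (h' : Pair false c b b') :
    b' = a * Mel true false c a b' ∧ Commute b (Mel true false c a b') := by
  have h1 : a * b⁻¹ * a⁻¹ = b' * b⁻¹ * b'⁻¹ := by
    have h2 : (a * b⁻¹ * a⁻¹) * b = (b' * b⁻¹ * b'⁻¹) * b := by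
      calc (a * b⁻¹ * a⁻¹) * b = c := by rw [show c = a * b⁻¹ * a⁻¹ * b from h]
        _ = (b' * b⁻¹ * b'⁻¹) * b := by rw [show c = b' * b⁻¹ * b'⁻¹ * b from h']
    exact mul_right_cancel h2
  refine ⟨by show b' = a * (a⁻¹ * b'); group, ?_⟩
  have h3 : Commute b⁻¹ (a⁻¹ * b') := by
    show b⁻¹ * (a⁻¹ * b') = a⁻¹ * b' * b⁻¹
    calc b⁻¹ * (a⁻¹ * b') = a⁻¹ * (a * b⁻¹ * a⁻¹) * b' := by group
      _ = a⁻¹ * (b' * b⁻¹ * b'⁻¹) * b' := by rw [h1]
      _ = a⁻¹ * b' * b⁻¹ := by group
  have := h3.inv_left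
  rwa [inv_inv] at this

/-- The element commutes with the middle meridian. -/
theorem mel_comm {σ σ' : Bool} (h : Pair σ c a b) (h' : Pair σ' c b b') :
    Commute b (Mel σ σ' c a b') := by
  cases σ <;> cases σ'
  · exact (mel_ff h h').2
  · exact (mel_ft h h').2
  · exact (mel_tf h h').2
  · exact (mel_tt h h').2

end alg

end Pool.Agent.TH744.Chain

namespace Pool.Agent.TH744.LS

section act
variable {G X : Type*} [Group G] [LinearOrder X] [MulAction G X]

theorem Mono.dom (hm : Mono G X) {b M : G} (hc : Commute b M) {P Q k : ℤ} (hQ : 1 ≤ Q)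
    (hP : k * Q ≤ P) (hr : M ^ Q = b ^ P) {v : X} (hv : v ≤ b • v) : b ^ k • v ≤ M • v := by
  have h1 : v ≤ (M * b ^ (-k)) • v := by
    refine hm.zroot_le hQ ?_
    have hc2 : Commute M (b ^ (-k)) := (hc.symm).zpow_right (-k)
    rw [hc2.mul_zpow, hr, ← zpow_mul, ← zpow_add]
    exact hm.zpow_le hv (by linarith)
  have h2 : M * b ^ (-k) = b ^ (-k) * M := ((hc.symm).zpow_right (-k)).eq
  rw [h2, mul_smul] at h1
  have h3 := (hm.le (b ^ k)).mpr h1
  rwa [← mul_smul, ← zpow_add, add_neg_cancel, zpow_zero, one_smul] at h3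

theorem Mono.dom1 (hm : Mono G X) {b M : G} (hc : Commute b M) {P Q : ℤ} (hQ : 1 ≤ Q)
    (hP : Q ≤ P) (hr : M ^ Q = b ^ P) {v : X} (hv : v ≤ b • v) : b • v ≤ M • v := by
  have := hm.dom hc (k := 1) hQ (by linarith) hr hv
  rwa [zpow_one] at this

theorem Mono.dom2 (hm : Mono G X) {b M : G} (hc : Commute b M) {P Q : ℤ} (hQ : 1 ≤ Q)
    (hP : 2 * Q ≤ P) (hr : M ^ Q = b ^ P) {v : X} (hv : v ≤ b • v) : b • b • v ≤ M • v := by
  have := hm.dom hc (k := 2) hQ (by linarith) hr hv
  rwa [zpow_two, mul_smul] at this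

theorem Mono.le_inv (hm : Mono G X) {g : G} {u v : X} : u ≤ g⁻¹ • v ↔ g • u ≤ v := by
  rw [← hm.le g, smul_inv_smul]

theorem Mono.inv_le (hm : Mono G X) {g : G} {u v : X} : g⁻¹ • u ≤ v ↔ u ≤ g • v := by
  rw [← hm.le g, smul_inv_smul]

theorem Mono.inv_lt (hm : Mono G X) {g : G} {u v : X} : g⁻¹ • u < v ↔ u < g • v := by
  rw [← hm.lt g, smul_inv_smul]

end act

end Pool.Agent.TH744.LS

namespace Pool.Agent.TH744.Chain

open Pool.Agent.TH744.LS (Mono)

section act
variable {G X : Type*} [Group G] [LinearOrder X] [MulAction G X]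

/-- The first growth condition. -/
structure CA (τ : Bool) (f : X) (a b : G) : Prop where
  c1 : f ≤ a • f
  c2 : f ≤ b • a⁻¹ • f
  c0 : f < b • f
  c3 : τ = false → b⁻¹ • f ≤ a • b⁻¹ • f

/-- The second growth condition. -/
structure CB (τ : Bool) (f : X) (a b : G) : Prop where
  c1 : f ≤ a • f
  c2 : a • f ≤ b • f
  c0 : f < b • f
  c3 : τ = true → b • f ≤ a • b • f

variable {c a b b' : G} {f : X} {P Q : ℤ}

theorem stepA (hm : Mono G X) {σ σ' : Bool} (h : Pair σ c a b) (h' : Pair σ' c b b')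
    (hQ : 1 ≤ Q) (hP : (if σ = σ' then 2 else 1) * Q ≤ P) (hr : Mel σ σ' c a b' ^ Q = b ^ P)
    (H : CA σ f a b) : CA σ' f b b' := by
  have hc := mel_comm h h'
  have hbi : b⁻¹ • f < f := by rw [hm.inv_lt]; exact H.c0
  have hbi' : b⁻¹ • f ≤ b • b⁻¹ • f := by rw [smul_inv_smul]; exact hbi.le
  have hai : a⁻¹ • f ≤ f := by rw [hm.inv_le]; exact H.c1
  have hba : a⁻¹ • f ≤ b • a⁻¹ • f := hai.trans H.c2
  -- it suffices to prove `c2` and `c3`
  have fin : f ≤ b' • b⁻¹ • f → (σ' = false → b'⁻¹ • f ≤ b • b'⁻¹ • f) → CA σ' f b b' := by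
    intro e2 e3
    exact ⟨H.c0.le, e2, lt_of_le_of_lt e2 ((hm.lt b').mpr hbi), e3⟩
  cases σ <;> cases σ'
  · -- false, false
    obtain ⟨e, -⟩ := mel_ff h h'
    generalize Mel false false c a b' = M at e hc hr
    simp only [if_true] at hP
    have hp1 : a • b⁻¹ • f ≤ f := by
      rw [← hm.le_inv (g := a), hm.inv_le]; exact H.c2
    have hp2 : f ≤ b • a • b⁻¹ • f := by
      rw [← hm.inv_le]; exact H.c3 rfl
    refine fin ?_ fun _ => ?_
    · have h1 : b • f ≤ M • b⁻¹ • f := by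
        have := hm.dom2 hc hQ hP hr hbi'
        rwa [smul_inv_smul] at this
      rw [e, mul_smul, mul_smul, mul_smul]
      have h2 : f ≤ b⁻¹ • M • b⁻¹ • f := by rw [hm.le_inv]; exact h1
      exact H.c2.trans ((hm.le b).mpr ((hm.le a⁻¹).mpr h2))
    · have e' : b'⁻¹ = M⁻¹ * b * a * b⁻¹ := by rw [e]; group
      have hc' : b * M⁻¹ = M⁻¹ * b := hc.inv_right.eq
      rw [e', mul_smul, mul_smul, mul_smul, ← mul_smul b M⁻¹, hc', mul_smul, hm.le, hm.le]
      exact hp1.trans hp2
  · -- false, true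
    obtain ⟨e, -⟩ := mel_ft h h'
    generalize Mel false true c a b' = M at e hc hr
    simp only [Bool.false_eq_true, if_false, one_mul] at hP
    refine fin ?_ (by simp)
    have h1 : f ≤ M • b⁻¹ • f := by
      have := hm.dom1 hc hQ hP hr hbi'
      rwa [smul_inv_smul] at this
    rw [e, mul_smul]
    exact h1.trans ((hm.le M).mpr (H.c3 rfl))
  · -- true, false
    obtain ⟨e, -⟩ := mel_tf h h'
    generalize Mel true false c a b' = M at e hc hr
    simp only [Bool.true_eq_false, if_false, one_mul] at hP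
    refine fin ?_ fun _ => ?_
    · have h1 : f ≤ M • b⁻¹ • f := by
        have := hm.dom1 hc hQ hP hr hbi'
        rwa [smul_inv_smul] at this
      rw [e, mul_smul]
      exact H.c1.trans ((hm.le a).mpr h1)
    · have e' : b'⁻¹ = M⁻¹ * a⁻¹ := by rw [e]; group
      have hc' : b * M⁻¹ = M⁻¹ * b := hc.inv_right.eq
      rw [e', mul_smul, ← mul_smul b M⁻¹, hc', mul_smul, hm.le]
      exact hba
  · -- true, true
    obtain ⟨e, -⟩ := mel_tt h h'
    generalize Mel true true c a b' = M at e hc hr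
    simp only [if_true] at hP
    refine fin ?_ (by simp)
    have h1 := hm.dom2 hc hQ hP hr hba
    have hc' : M * b⁻¹ = b⁻¹ * M := hc.symm.inv_right.eq
    have e' : b' * b⁻¹ = b⁻¹ * M * a⁻¹ := by rw [e, ← hc']; group
    rw [← mul_smul, e', mul_smul, mul_smul, hm.le_inv]
    have h2 : b • f ≤ b • b • a⁻¹ • f := (hm.le b).mpr H.c2
    exact h2.trans h1

theorem stepB (hm : Mono G X) {σ σ' : Bool} (h : Pair σ c a b) (h' : Pair σ' c b b')
    (hQ : 1 ≤ Q) (hP : (if σ = σ' then 2 else 1) * Q ≤ P) (hr : Mel σ σ' c a b' ^ Q = b ^ P)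
    (H : CB σ f a b) : CB σ' f b b' := by
  have hc := mel_comm h h'
  have fin : b • f ≤ b' • f → (σ' = true → b' • f ≤ b • b' • f) → CB σ' f b b' := by
    intro e2 e3
    exact ⟨H.c0.le, e2, lt_of_lt_of_le H.c0 e2, e3⟩
  have hfb : f ≤ a⁻¹ • b • f := by rw [hm.le_inv]; exact H.c2
  cases σ <;> cases σ'
  · -- false, false
    obtain ⟨e, -⟩ := mel_ff h h'
    generalize Mel false false c a b' = M at e hc hr
    simp only [if_true] at hP
    refine fin ?_ (by simp)
    have h1 := hm.dom2 hc hQ hP hr H.c0.le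
    have h2 : b • f ≤ b⁻¹ • M • f := by rw [hm.le_inv]; exact h1
    rw [e, mul_smul, mul_smul, mul_smul, hm.le, hm.le_inv]
    exact H.c2.trans h2
  · -- false, true
    obtain ⟨e, -⟩ := mel_ft h h'
    generalize Mel false true c a b' = M at e hc hr
    simp only [Bool.false_eq_true, if_false, one_mul] at hP
    have h0 : b • f ≤ b • a • f := (hm.le b).mpr H.c1
    have h1 : a • f ≤ b • a • f := H.c2.trans h0
    have h2 := hm.dom1 hc hQ hP hr h1
    refine fin ?_ fun _ => ?_
    · rw [e, mul_smul]; exact h0.trans h2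
    · rw [e, mul_smul, ← mul_smul b M, hc.eq, mul_smul, hm.le]; exact h1
  · -- true, false
    obtain ⟨e, -⟩ := mel_tf h h'
    generalize Mel true false c a b' = M at e hc hr
    simp only [Bool.true_eq_false, if_false, one_mul] at hP
    refine fin ?_ (by simp)
    have h1 := hm.dom1 hc hQ hP hr H.c0.le
    rw [e, mul_smul]
    exact (H.c3 rfl).trans ((hm.le a).mpr h1)
  · -- true, true
    obtain ⟨e, -⟩ := mel_tt h h'
    generalize Mel true true c a b' = M at e hc hr
    simp only [if_true] at hP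
    have hp1 : b⁻¹ • a⁻¹ • b • f ≤ f := by
      rw [hm.inv_le, hm.inv_le]; exact H.c3 rfl
    have hp2 : b⁻¹ • a⁻¹ • b • f ≤ b • b⁻¹ • a⁻¹ • b • f := by
      rw [smul_inv_smul]; exact hp1.trans hfb
    have h1 := hm.dom2 hc hQ hP hr hp2
    rw [smul_inv_smul] at h1
    refine fin ?_ fun _ => ?_
    · rw [e, mul_smul, mul_smul, mul_smul]
      exact ((hm.le b).mpr hfb).trans h1
    · rw [e, mul_smul, mul_smul, mul_smul, ← mul_smul b M, hc.eq, mul_smul, hm.le]
      exact hp2

end act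

end Pool.Agent.TH744.Chain
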