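import Pool.Agent.TH744.Chain.Comp

set_option autoImplicit false
set_option linter.unusedSectionVars false

/-!
# From the relations of a chain link to normalised sequences
-/

namespace Pool.Agent.TH744.Chain

variable {H : Type*} [Group H] {c a b b' : H} {σ σ' : Bool} {P Q : ℤ}

/-- Half a twist. -/
def Hf (c : H) : Equiv.Perm H where
  toFun z := c * z⁻¹
  invFun z := z⁻¹ * c
  left_inv z := by simp
  right_inv z := by simp

theorem Hf_apply (z : H) : Hf c z = c * z⁻¹ := rfl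

theorem Hf_inv_apply (z : H) : (Hf c)⁻¹ z = z⁻¹ * c := rfl

theorem Pair.half (h : Pair σ c a b) : Pair σ c (c * a⁻¹) (c * b⁻¹) := by
  cases σ
  · have h1 : c⁻¹ * b = a⁻¹ * b * a := by rw [show c = b * a⁻¹ * b⁻¹ * a from h]; group
    show c = c * b⁻¹ * (c * a⁻¹)⁻¹ * (c * b⁻¹)⁻¹ * (c * a⁻¹)
    calc c = c * b⁻¹ * a * (a⁻¹ * b * a) * a⁻¹ := by group
      _ = c * b⁻¹ * a * (c⁻¹ * b) * a⁻¹ := by rw [h1]
      _ = _ := by group
  · have h1 : c⁻¹ * a = b⁻¹ * a * b := by rw [show c = a * b⁻¹ * a⁻¹ * b from h]; group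
    show c = c * a⁻¹ * (c * b⁻¹)⁻¹ * (c * a⁻¹)⁻¹ * (c * b⁻¹)
    calc c = c * a⁻¹ * b * (b⁻¹ * a * b) * b⁻¹ := by group
      _ = c * a⁻¹ * b * (c⁻¹ * a) * b⁻¹ := by rw [h1]
      _ = _ := by group

theorem Pair.conj (h : Pair σ c a b) {g : H} (hg : Commute g c) :
    Pair σ c (g * a * g⁻¹) (g * b * g⁻¹) := by
  have hc : c = g * c * g⁻¹ := by rw [hg.eq]; group
  cases σ
  · have h1 : c = b * a⁻¹ * b⁻¹ * a := h
    show c = g * b * g⁻¹ * (g * a * g⁻¹)⁻¹ * (g * b * g⁻¹)⁻¹ * (g * a * g⁻¹)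
    calc c = g * c * g⁻¹ := hc
      _ = g * (b * a⁻¹ * b⁻¹ * a) * g⁻¹ := by rw [← h1]
      _ = _ := by group
  · have h1 : c = a * b⁻¹ * a⁻¹ * b := h
    show c = g * a * g⁻¹ * (g * b * g⁻¹)⁻¹ * (g * a * g⁻¹)⁻¹ * (g * b * g⁻¹)
    calc c = g * c * g⁻¹ := hc
      _ = g * (a * b⁻¹ * a⁻¹ * b) * g⁻¹ := by rw [← h1]
      _ = _ := by group

/-- Three consecutive normalised meridians with the surgery relation for the middle one. -/
structure Tri (σ σ' : Bool) (c a b b' : H) (P Q : ℤ) : Prop where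
  p1 : Pair σ c a b
  p2 : Pair σ' c b b'
  rel : Mel σ σ' c a b' ^ Q = b ^ P

theorem Tri.conj (h : Tri σ σ' c a b b' P Q) {g : H} (hg : Commute g c) :
    Tri σ σ' c (g * a * g⁻¹) (g * b * g⁻¹) (g * b' * g⁻¹) P Q := by
  refine ⟨h.p1.conj hg, h.p2.conj hg, ?_⟩
  have hc : c⁻¹ = g * c⁻¹ * g⁻¹ := by rw [hg.inv_right.eq]; group
  have e : Mel σ σ' c (g * a * g⁻¹) (g * b' * g⁻¹) = g * Mel σ σ' c a b' * g⁻¹ := by
    cases σ <;> cases σ'
    · show g * a * g⁻¹ * c⁻¹ * (g * b' * g⁻¹) = g * (a * c⁻¹ * b') * g⁻¹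
      nth_rewrite 1 [hc]; group
    · show g * b' * g⁻¹ * (g * a * g⁻¹)⁻¹ = g * (b' * a⁻¹) * g⁻¹
      group
    · show (g * a * g⁻¹)⁻¹ * (g * b' * g⁻¹) = g * (a⁻¹ * b') * g⁻¹
      group
    · show g * b' * g⁻¹ * c⁻¹ * (g * a * g⁻¹) = g * (b' * c⁻¹ * a) * g⁻¹
      nth_rewrite 1 [hc]; group
  rw [e, conj_zpow, conj_zpow, h.rel]

theorem Tri.half (h : Tri σ σ' c a b b' P Q) :
    Tri σ σ' c (c * a⁻¹) (c * b⁻¹) (c * b'⁻¹) P Q := by
  refine ⟨h.p1.half, h.p2.half, ?_⟩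
  have key : ∃ g, Mel σ σ' c (c * a⁻¹) (c * b'⁻¹) = g * (Mel σ σ' c a b')⁻¹ * g⁻¹ ∧
      c * b⁻¹ = g * b⁻¹ * g⁻¹ := by
    have p1 := h.p1
    have p2 := h.p2
    cases σ <;> cases σ'
    · refine ⟨b', ?_, ?_⟩
      · show c * a⁻¹ * c⁻¹ * (c * b'⁻¹) = b' * (a * c⁻¹ * b')⁻¹ * b'⁻¹
        group
      · rw [show c = b' * b⁻¹ * b'⁻¹ * b from p2]; group
    · refine ⟨c * b'⁻¹, ?_, ?_⟩
      · show c * b'⁻¹ * (c * a⁻¹)⁻¹ = c * b'⁻¹ * (b' * a⁻¹)⁻¹ * (c * b'⁻¹)⁻¹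
        group
      · have h1 : b * b'⁻¹ * b⁻¹ * b' * c⁻¹ = 1 := by
          rw [← show c = b * b'⁻¹ * b⁻¹ * b' from p2]; group
        calc c * b⁻¹ = c * b⁻¹ * (b * b'⁻¹ * b⁻¹ * b' * c⁻¹) := by rw [h1, mul_one]
          _ = _ := by group
    · refine ⟨a, ?_, ?_⟩
      · show (c * a⁻¹)⁻¹ * (c * b'⁻¹) = a * (a⁻¹ * b')⁻¹ * a⁻¹
        group
      · rw [show c = a * b⁻¹ * a⁻¹ * b from p1]; group
    · refine ⟨a, ?_, ?_⟩
      · show c * b'⁻¹ * c⁻¹ * (c * a⁻¹) = a * (b' * c⁻¹ * a)⁻¹ * a⁻¹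
        group
      · rw [show c = a * b⁻¹ * a⁻¹ * b from p1]; group
  obtain ⟨g, e1, e2⟩ := key
  rw [e1, e2, conj_zpow, conj_zpow, inv_zpow, inv_zpow, h.rel]

theorem unhalf_eq (z : H) : z⁻¹ * c = c⁻¹ * (c * z⁻¹) * c⁻¹⁻¹ := by group

theorem Pair.unhalf (h : Pair σ c a b) : Pair σ c (a⁻¹ * c) (b⁻¹ * c) := by
  rw [unhalf_eq a, unhalf_eq b]
  exact h.half.conj (Commute.refl c).inv_left

theorem Tri.unhalf (h : Tri σ σ' c a b b' P Q) :
    Tri σ σ' c (a⁻¹ * c) (b⁻¹ * c) (b'⁻¹ * c) P Q := by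
  rw [unhalf_eq a, unhalf_eq b, unhalf_eq b']
  exact h.half.conj (Commute.refl c).inv_left

theorem Pair.pow (h : Pair σ c a b) (u : ℤ) : Pair σ c ((Hf c ^ u) a) ((Hf c ^ u) b) := by
  induction u using Int.induction_on with
  | zero => exact h
  | succ n ih =>
    have e : ∀ z : H, (Hf c ^ ((n : ℤ) + 1)) z = c * ((Hf c ^ (n : ℤ)) z)⁻¹ := by
      intro z; rw [add_comm, zpow_add, zpow_one, Equiv.Perm.mul_apply, Hf_apply]
    rw [e, e]; exact ih.half
  | pred n ih =>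
    have e : ∀ z : H, (Hf c ^ (-(n : ℤ) - 1)) z = ((Hf c ^ (-(n : ℤ))) z)⁻¹ * c := by
      intro z
      rw [sub_eq_add_neg, add_comm, zpow_add, zpow_neg_one, Equiv.Perm.mul_apply, Hf_inv_apply]
    rw [e, e]; exact ih.unhalf

theorem Tri.pow (h : Tri σ σ' c a b b' P Q) (u : ℤ) :
    Tri σ σ' c ((Hf c ^ u) a) ((Hf c ^ u) b) ((Hf c ^ u) b') P Q := by
  induction u using Int.induction_on with
  | zero => exact h
  | succ n ih =>
    have e : ∀ z : H, (Hf c ^ ((n : ℤ) + 1)) z = c * ((Hf c ^ (n : ℤ)) z)⁻¹ := by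
      intro z; rw [add_comm, zpow_add, zpow_one, Equiv.Perm.mul_apply, Hf_apply]
    rw [e, e, e]; exact ih.half
  | pred n ih =>
    have e : ∀ z : H, (Hf c ^ (-(n : ℤ) - 1)) z = ((Hf c ^ (-(n : ℤ))) z)⁻¹ * c := by
      intro z
      rw [sub_eq_add_neg, add_comm, zpow_add, zpow_neg_one, Equiv.Perm.mul_apply, Hf_inv_apply]
    rw [e, e, e]; exact ih.unhalf

/-- The twist needed when the type of a clasp does not match the sign of the slope. -/
def del (s t : Bool) : ℤ := (if s then 0 else 1) - (if t then 0 else 1)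

/-- Left part of a longitude. -/
def Lf (t : Bool) (c a : H) : H := if t then a⁻¹ * c else a

/-- Right part of a longitude. -/
def Rf (t : Bool) (c b : H) : H := if t then b⁻¹ else c⁻¹ * b

theorem del_eq (s : Bool) : del s s = 0 := by cases s <;> rfl

theorem pair_right {s t : Bool} (h : Pair t c a b) : Pair s c a ((Hf c ^ del s t) b) := by
  cases s <;> cases t
  · exact h
  · show Pair false c a ((Hf c ^ (1 - 0 : ℤ)) b)
    rw [sub_zero, zpow_one, Hf_apply]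
    have h1 : b⁻¹ * a⁻¹ * b = a⁻¹ * c := by rw [show c = a * b⁻¹ * a⁻¹ * b from h]; group
    show c = c * b⁻¹ * a⁻¹ * (c * b⁻¹)⁻¹ * a
    calc c = c * (a⁻¹ * c) * c⁻¹ * a := by group
      _ = c * (b⁻¹ * a⁻¹ * b) * c⁻¹ * a := by rw [h1]
      _ = _ := by group
  · show Pair true c a ((Hf c ^ (0 - 1 : ℤ)) b)
    rw [zero_sub, zpow_neg_one, Hf_inv_apply]
    have h1 : b * a⁻¹ * b⁻¹ = c * a⁻¹ := by rw [show c = b * a⁻¹ * b⁻¹ * a from h]; group
    show c = a * (b⁻¹ * c)⁻¹ * a⁻¹ * (b⁻¹ * c)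
    calc c = a * c⁻¹ * (c * a⁻¹) * c := by group
      _ = a * c⁻¹ * (b * a⁻¹ * b⁻¹) * c := by rw [h1]
      _ = _ := by group
  · exact h

theorem pair_left {s t : Bool} (h : Pair t c a b) : Pair s c ((Hf c ^ (-del s t)) a) b := by
  have h1 := (pair_right (s := s) h).pow (-del s t)
  rwa [← Equiv.Perm.mul_apply, ← zpow_add, neg_add_cancel, zpow_zero, Equiv.Perm.one_apply] at h1

theorem left_true {t : Bool} : c⁻¹ * (Hf c ^ (-del true t)) a = (Lf t c a)⁻¹ := by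
  cases t
  · show c⁻¹ * (Hf c ^ (-(0 - 1) : ℤ)) a = a⁻¹
    rw [zero_sub, neg_neg, zpow_one, Hf_apply]; group
  · show c⁻¹ * (Hf c ^ (-(0 - 0) : ℤ)) a = (a⁻¹ * c)⁻¹
    simp

theorem left_false {t : Bool} : (Hf c ^ (-del false t)) a = Lf t c a := by
  cases t
  · show (Hf c ^ (-(1 - 1) : ℤ)) a = a
    simp
  · show (Hf c ^ (-(1 - 0) : ℤ)) a = a⁻¹ * c
    rw [sub_zero, zpow_neg_one, Hf_inv_apply]

theorem right_true {t : Bool} : (Hf c ^ del true t) b = (Rf t c b)⁻¹ := by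
  cases t
  · show (Hf c ^ (0 - 1 : ℤ)) b = (c⁻¹ * b)⁻¹
    rw [zero_sub, zpow_neg_one, Hf_inv_apply]; group
  · show (Hf c ^ (0 - 0 : ℤ)) b = b⁻¹⁻¹
    simp

theorem right_false {t : Bool} : c⁻¹ * (Hf c ^ del false t) b = Rf t c b := by
  cases t
  · show c⁻¹ * (Hf c ^ (1 - 1 : ℤ)) b = c⁻¹ * b
    simp
  · show c⁻¹ * (Hf c ^ (1 - 0 : ℤ)) b = b⁻¹
    rw [sub_zero, zpow_one, Hf_apply]; group

theorem tri_base {s s' t t' : Bool} (h : Pair t c a b) (h' : Pair t' c b b') {p q : ℤ}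
    (hr : b ^ p * (Lf t c a * Rf t' c b') ^ q = 1) :
    Tri s s' c ((Hf c ^ (-del s t)) a) b ((Hf c ^ del s' t') b') (if s' then p else -p) q := by
  refine ⟨pair_left h, pair_right h', ?_⟩
  cases s'
  · have e : Mel s false c ((Hf c ^ (-del s t)) a) ((Hf c ^ del false t') b')
        = Lf t c a * Rf t' c b' := by
      rw [← right_false]
      cases s
      · rw [← left_false]
        show _ * c⁻¹ * _ = _
        group
      · have h1 : Lf t c a = ((Hf c ^ (-del true t)) a)⁻¹ * c := by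
          rw [← inv_inv (Lf t c a), ← left_true]; group
        rw [h1]
        show _⁻¹ * _ = _
        group
    rw [e]
    show _ = b ^ (-p)
    rw [zpow_neg]; exact eq_inv_of_mul_eq_one_right hr
  · have e : Mel s true c ((Hf c ^ (-del s t)) a) ((Hf c ^ del true t') b')
        = (Lf t c a * Rf t' c b')⁻¹ := by
      rw [mul_inv_rev, ← right_true]
      cases s
      · rw [← left_false]; rfl
      · rw [← left_true]
        show _ * c⁻¹ * _ = _
        group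
    rw [e]
    show _ = b ^ p
    rw [inv_zpow]; exact (eq_inv_of_mul_eq_one_left hr).symm

/-- The relations of a chain link with `n` components: `a i` are the meridians, `t i` the types
of the clasps, `s i` the signs of the slopes `p i / q i`. -/
structure Dat (n : ℕ) (a : ℕ → H) (c : H) (t s : ℕ → Bool) (p q : ℕ → ℤ) : Prop where
  pair : ∀ i, Pair (t i) c (a i) (a (i + 1))
  rel : ∀ i, a (i + 1) ^ p (i + 1) *
    (Lf (t i) c (a i) * Rf (t (i + 1)) c (a (i + 2))) ^ q (i + 1) = 1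
  pa : ∀ i, a (i + n) = a i
  pt : ∀ i, t (i + n) = t i
  ps : ∀ i, s (i + n) = s i

/-- Number of half twists before the `i`-th component. -/
def tw (s t : ℕ → Bool) : ℕ → ℤ
  | 0 => 0
  | i + 1 => tw s t i + del (s i) (t i)

/-- The normalised meridians. -/
def nor (c : H) (s t : ℕ → Bool) (a : ℕ → H) (i : ℕ) : H := (Hf c ^ tw s t i) (a i)

variable {n : ℕ} {x : ℕ → H} {t s : ℕ → Bool} {p q : ℕ → ℤ}

theorem Dat.tw_add (h : Dat n x c t s p q) (i : ℕ) : tw s t (i + n) = tw s t i + tw s t n := by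
  induction i with
  | zero => simp [tw]
  | succ i ih =>
    have e : i + 1 + n = i + n + 1 := by ring
    rw [e]
    show tw s t (i + n) + del (s (i + n)) (t (i + n)) = tw s t i + del (s i) (t i) + tw s t n
    rw [ih, h.pt, h.ps]; ring

theorem Dat.nor_add (h : Dat n x c t s p q) (i : ℕ) :
    nor c s t x (i + n) = (Hf c ^ tw s t n) (nor c s t x i) := by
  unfold nor
  rw [h.tw_add, h.pa, add_comm, zpow_add, Equiv.Perm.mul_apply]

theorem Dat.sq (h : Dat n x c t s p q) (hq : ∀ i, 1 ≤ q i)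
    (hp : ∀ i, (if s i = s (i + 1) then 2 else 1) * q (i + 1)
      ≤ (if s (i + 1) then p (i + 1) else - p (i + 1))) :
    Sq (nor c s t x) c s (fun i => if s i then p i else - p i) q := by
  refine ⟨fun i => ?_, hq, hp, fun i => ?_⟩
  · have h1 := (pair_right (s := s i) (h.pair i)).pow (tw s t i)
    rw [← Equiv.Perm.mul_apply, ← zpow_add] at h1
    exact h1
  · have h1 := (tri_base (s := s i) (s' := s (i + 1)) (h.pair i) (h.pair (i + 1)) (h.rel i)).pow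
      (tw s t (i + 1))
    rw [← Equiv.Perm.mul_apply, ← zpow_add, ← Equiv.Perm.mul_apply, ← zpow_add] at h1
    have e : tw s t (i + 1) + -del (s i) (t i) = tw s t i := by
      show tw s t i + del (s i) (t i) + -del (s i) (t i) = tw s t i
      ring
    rw [e] at h1
    exact h1.rel

/-- The closing condition. -/
theorem Dat.clo_half (h : Dat n x c t s p q) (hd : tw s t n = 1 ∨ tw s t n = -1) :
    (∀ i, nor c s t x (i + n) = c * (nor c s t x i)⁻¹) ∨
      (∀ i, nor c s t x (i + n) = (nor c s t x i)⁻¹ * c) := by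
  rcases hd with hd | hd
  · left; intro i; rw [h.nor_add, hd, zpow_one, Hf_apply]
  · right; intro i; rw [h.nor_add, hd, zpow_neg_one, Hf_inv_apply]

theorem Dat.clo_zero (h : Dat n x c t s p q) (hd : tw s t n = 0) :
    ∀ i, nor c s t x (i + n) = nor c s t x i := by
  intro i; rw [h.nor_add, hd, zpow_zero, Equiv.Perm.one_apply]

end Pool.Agent.TH744.Chain
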