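import Pool.Agent.TH744.Chain.Comp

set_option autoImplicit false
set_option linter.unusedSectionVars false

/-!
# Sequences of meridians that close up without twist
-/

namespace Pool.Agent.TH744.Chain

open Pool.Agent.TH744.LS (Mono inv_fix)

section J
variable {G X : Type*} [Group G] [LinearOrder X] [MulAction G X] {α β : X}
variable {y : ℕ → G} {c : G} {s : ℕ → Bool} {P Q : ℕ → ℤ}

/-- `a` moves up and is at least as strong as `b`, or dually. -/
def St (α β : X) (a b : G) : Prop :=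
  (Up α β a ∧ ∀ v, α < v → v < β → b • v ≤ a • v) ∨
    (Dn α β a ∧ ∀ v, α < v → v < β → a • v ≤ b • v)

/-- `a` is stronger than `g` and `g⁻¹`. -/
def Gt (α β : X) (a g : G) : Prop :=
  (Up α β a ∧ ∀ v, α < v → v < β → g • v < a • v ∧ g⁻¹ • v < a • v) ∨
    (Dn α β a ∧ ∀ v, α < v → v < β → a • v < g • v ∧ a • v < g⁻¹ • v)

theorem St.dual {a b : G} (h : St (X := Xᵒᵈ) β α a b) : St α β a b := by
  rcases h with ⟨h1, h2⟩ | ⟨h1, h2⟩
  · exact Or.inr ⟨fun v v1 v2 => h1 v v2 v1, fun v v1 v2 => h2 v v2 v1⟩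
  · exact Or.inl ⟨fun v v1 v2 => h1 v v2 v1, fun v v1 v2 => h2 v v2 v1⟩

theorem Gt.dual {a b : G} (h : Gt (X := Xᵒᵈ) β α a b) : Gt α β a b := by
  rcases h with ⟨h1, h2⟩ | ⟨h1, h2⟩
  · exact Or.inr ⟨fun v v1 v2 => h1 v v2 v1, fun v v1 v2 => h2 v v2 v1⟩
  · exact Or.inl ⟨fun v v1 v2 => h1 v v2 v1, fun v v1 v2 => h2 v v2 v1⟩

/-- Solving the surgery relation for the previous meridian. -/
theorem prev_eq {σ σ' : Bool} {a' a b : G} (h : Pair σ c a' a) (h' : Pair σ' c a b) :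
    (σ = σ' ∧ (a' = a * b⁻¹ * Mel σ σ' c a' b * a⁻¹ ∨
      a' = a⁻¹ * Mel σ σ' c a' b * b⁻¹ * a)) ∨
    (σ ≠ σ' ∧ (a'⁻¹ = b⁻¹ * Mel σ σ' c a' b ∨ a'⁻¹ = Mel σ σ' c a' b * b⁻¹)) := by
  cases σ <;> cases σ'
  · left
    refine ⟨rfl, Or.inr ?_⟩
    obtain ⟨e, -⟩ := mel_ff h h'
    generalize Mel false false c a' b = M at *
    rw [e]; group
  · right
    refine ⟨by simp, Or.inl ?_⟩
    obtain ⟨e, -⟩ := mel_ft h h'
    generalize Mel false true c a' b = M at *
    rw [e]; group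
  · right
    refine ⟨by simp, Or.inr ?_⟩
    obtain ⟨e, -⟩ := mel_tf h h'
    generalize Mel true false c a' b = M at *
    rw [e]; group
  · left
    refine ⟨rfl, Or.inl ?_⟩
    obtain ⟨e, hc⟩ := mel_tt h h'
    generalize Mel true true c a' b = M at *
    have hc' : M * a⁻¹ = a⁻¹ * M := hc.symm.inv_right.eq
    have e2 : b⁻¹ = a⁻¹ * a' * a * M⁻¹ := by rw [e]; group
    rw [e2]
    calc a' = a' * a * a⁻¹ := by group
      _ = a * (a⁻¹ * a' * a * M⁻¹) * (M * a⁻¹) := by group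
      _ = _ := by group

/-- The backward step. -/
theorem bk (hm : Mono G X) {σ σ' : Bool} {a' a b : G} (h : Pair σ c a' a) (h' : Pair σ' c a b)
    {P Q : ℤ} (hQ : 1 ≤ Q) (hP : 2 * Q ≤ P) (hr : Mel σ σ' c a' b ^ Q = a ^ P)
    (ha' : Fx α β a') (ha : Fx α β a) (hb : Fx α β b) (hc : Fx α β c)
    (hup : Up α β a) (hba : ∀ v, α < v → v < β → b • v ≤ a • v) :
    (∀ v, α < v → v < β → a • v ≤ a' • v) ∨ (∀ v, α < v → v < β → a • v ≤ a'⁻¹ • v) := by
  have hM := Fx.mel (σ := σ) (σ' := σ') hc ha' hb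
  have hcm := mel_comm h h'
  have hMM : ∀ w, α < w → w < β → a • a • w ≤ Mel σ σ' c a' b • w := fun w w1 w2 =>
    hm.dom2 hcm hQ hP hr (hup w w1 w2).le
  -- `b⁻¹ (a w) ≥ w`
  have hb' : ∀ w, α < w → w < β → w ≤ b⁻¹ • a • w := by
    intro w w1 w2
    rw [hm.le_inv]; exact hba w w1 w2
  rcases prev_eq h h' with ⟨-, e | e⟩ | ⟨-, e | e⟩
  · left
    intro v v1 v2
    generalize Mel σ σ' c a' b = M at *
    rw [e, mul_smul, mul_smul, mul_smul, hm.le]
    have w := ha.inv.mem hm v1 v2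
    have h1 := hMM _ w.1 w.2
    rw [smul_inv_smul] at h1
    have h2 := (hm.le b⁻¹).mpr h1
    exact (hb' v v1 v2).trans h2
  · left
    intro v v1 v2
    generalize Mel σ σ' c a' b = M at *
    rw [e, mul_smul, mul_smul, mul_smul, hm.le_inv]
    have h2 := (hm.le M).mpr (hb' v v1 v2)
    exact (hMM v v1 v2).trans h2
  · right
    intro v v1 v2
    generalize Mel σ σ' c a' b = M at *
    rw [e, mul_smul]
    have w := ha.mem hm v1 v2
    have h2 := (hm.le b⁻¹).mpr (hMM v v1 v2)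
    exact (hb' _ w.1 w.2).trans h2
  · right
    intro v v1 v2
    generalize Mel σ σ' c a' b = M at *
    rw [e, mul_smul]
    have w := ha.inv.mem hm v1 v2
    have h1 := hb' _ w.1 w.2
    rw [smul_inv_smul] at h1
    have h2 := (hm.le M).mpr h1
    have h3 := hMM _ w.1 w.2
    rw [smul_inv_smul] at h3
    exact h3.trans h2

/-- Strict form of the backward step. -/
theorem bk_strict (hm : Mono G X) {σ σ' : Bool} {a' a b : G} (h : Pair σ c a' a)
    (h' : Pair σ' c a b)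
    {P Q : ℤ} (hQ : 1 ≤ Q) (hP : 2 * Q ≤ P) (hr : Mel σ σ' c a' b ^ Q = a ^ P)
    (ha' : Fx α β a') (ha : Fx α β a) (hb : Fx α β b) (hc : Fx α β c)
    (hup : Up α β a) (hdn : Dn α β b) :
    (∀ v, α < v → v < β → a • v < a' • v) ∨ (∀ v, α < v → v < β → a • v < a'⁻¹ • v) := by
  have hM := Fx.mel (σ := σ) (σ' := σ') hc ha' hb
  have hcm := mel_comm h h'
  have hMM : ∀ w, α < w → w < β → a • w < Mel σ σ' c a' b • w := fun w w1 w2 =>
    lt_of_lt_of_le ((hm.lt a).mpr (hup w w1 w2)) (hm.dom2 hcm hQ hP hr (hup w w1 w2).le)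
  have hb' : Up α β b⁻¹ := hdn.inv_up hm
  rcases prev_eq h h' with ⟨-, e | e⟩ | ⟨-, e | e⟩
  · left
    intro v v1 v2
    generalize Mel σ σ' c a' b = M at *
    rw [e, mul_smul, mul_smul, mul_smul, hm.lt]
    have w := ha.inv.mem hm v1 v2
    have h1 := hMM _ w.1 w.2
    rw [smul_inv_smul] at h1
    have w' := hM.mem hm w.1 w.2
    exact h1.trans (hb' _ w'.1 w'.2)
  · left
    intro v v1 v2
    generalize Mel σ σ' c a' b = M at *
    rw [e, mul_smul, mul_smul, mul_smul, ← hm.lt a, smul_inv_smul]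
    have w := ha.mem hm v1 v2
    have h2 := hb' _ w.1 w.2
    have h3 := (hm.lt M).mpr h2
    exact (hMM _ w.1 w.2).trans h3
  · right
    intro v v1 v2
    generalize Mel σ σ' c a' b = M at *
    rw [e, mul_smul]
    have w := hM.mem hm v1 v2
    exact (hMM v v1 v2).trans (hb' _ w.1 w.2)
  · right
    intro v v1 v2
    generalize Mel σ σ' c a' b = M at *
    rw [e, mul_smul]
    exact (hMM v v1 v2).trans ((hm.lt M).mpr (hb' v v1 v2))

theorem step_back_aux (hm : Mono G X) {σ σ' : Bool} {a' a b g : G} (h : Pair σ c a' a)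
    (h' : Pair σ' c a b)
    {P Q : ℤ} (hQ : 1 ≤ Q) (hP : 2 * Q ≤ P) (hr : Mel σ σ' c a' b ^ Q = a ^ P)
    (ha' : Fx α β a') (ha : Fx α β a) (hb : Fx α β b) (hc : Fx α β c) (hg : Fx α β g)
    (hup : Up α β a) (hba : ∀ v, α < v → v < β → b • v ≤ a • v)
    (hga : ∀ v, α < v → v < β → g • v < a • v ∧ g⁻¹ • v < a • v) :
    St α β a' a ∧ Gt α β a' g := by
  rcases bk hm h h' hQ hP hr ha' ha hb hc hup hba with h1 | h1
  · have hu : Up α β a' := fun v v1 v2 => lt_of_lt_of_le (hup v v1 v2) (h1 v v1 v2)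
    exact ⟨Or.inl ⟨hu, h1⟩, Or.inl ⟨hu, fun v v1 v2 =>
      ⟨lt_of_lt_of_le (hga v v1 v2).1 (h1 v v1 v2),
        lt_of_lt_of_le (hga v v1 v2).2 (h1 v v1 v2)⟩⟩⟩
  · have hd : Dn α β a' := by
      intro v v1 v2
      have w := ha'.mem hm v1 v2
      have h2 := lt_of_lt_of_le (hup _ w.1 w.2) (h1 _ w.1 w.2)
      rwa [inv_smul_smul] at h2
    refine ⟨Or.inr ⟨hd, fun v v1 v2 => ((hd v v1 v2).trans (hup v v1 v2)).le⟩,
      Or.inr ⟨hd, fun v v1 v2 => ⟨?_, ?_⟩⟩⟩
    · have w := hg.mem hm v1 v2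
      have h2 := lt_of_lt_of_le (hga _ w.1 w.2).2 (h1 _ w.1 w.2)
      rw [inv_smul_smul] at h2
      have h3 := (hm.lt a').mpr h2
      rwa [smul_inv_smul] at h3
    · have w := hg.inv.mem hm v1 v2
      have h2 := lt_of_lt_of_le (hga _ w.1 w.2).1 (h1 _ w.1 w.2)
      rw [smul_inv_smul] at h2
      have h3 := (hm.lt a').mpr h2
      rwa [smul_inv_smul] at h3

theorem Fx.dual {g : G} (h : Fx α β g) : Fx (X := Xᵒᵈ) β α g := ⟨h.2, h.1⟩

theorem step_back (hm : Mono G X) {σ σ' : Bool} {a' a b g : G} (h : Pair σ c a' a)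
    (h' : Pair σ' c a b)
    {P Q : ℤ} (hQ : 1 ≤ Q) (hP : 2 * Q ≤ P) (hr : Mel σ σ' c a' b ^ Q = a ^ P)
    (ha' : Fx α β a') (ha : Fx α β a) (hb : Fx α β b) (hc : Fx α β c) (hg : Fx α β g)
    {v0 : X} (hv1 : α < v0) (hv2 : v0 < β)
    (hst : St α β a b) (hgt : Gt α β a g) :
    St α β a' a ∧ Gt α β a' g := by
  rcases hst with ⟨h1, h2⟩ | ⟨h1, h2⟩
  · rcases hgt with ⟨h3, h4⟩ | ⟨h3, h4⟩
    · exact step_back_aux hm h h' hQ hP hr ha' ha hb hc hg h1 h2 h4
    · exact absurd (h1 v0 hv1 hv2) (not_lt.mpr (h3 v0 hv1 hv2).le)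
  · rcases hgt with ⟨h3, h4⟩ | ⟨h3, h4⟩
    · exact absurd (h1 v0 hv1 hv2) (not_lt.mpr (h3 v0 hv1 hv2).le)
    · have := step_back_aux (X := Xᵒᵈ) hm.dual h h' hQ hP hr ha'.dual ha.dual hb.dual hc.dual
        hg.dual (fun v v1 v2 => h1 v v2 v1) (fun v v1 v2 => h2 v v2 v1)
        (fun v v1 v2 => h4 v v2 v1)
      exact ⟨this.1.dual, this.2.dual⟩

theorem start_back_aux (hm : Mono G X) {σ σ' : Bool} {a' a b : G} (h : Pair σ c a' a)
    (h' : Pair σ' c a b)
    {P Q : ℤ} (hQ : 1 ≤ Q) (hP : 2 * Q ≤ P) (hr : Mel σ σ' c a' b ^ Q = a ^ P)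
    (ha' : Fx α β a') (ha : Fx α β a) (hb : Fx α β b) (hc : Fx α β c)
    (hup : Up α β a) (hdn : Dn α β b) :
    St α β a' a ∧ Gt α β a' a := by
  have hai : ∀ v, α < v → v < β → a⁻¹ • v < v := by
    intro v v1 v2
    rw [hm.inv_lt]; exact hup v v1 v2
  rcases bk_strict hm h h' hQ hP hr ha' ha hb hc hup hdn with h1 | h1
  · have hu : Up α β a' := fun v v1 v2 => (hup v v1 v2).trans (h1 v v1 v2)
    exact ⟨Or.inl ⟨hu, fun v v1 v2 => (h1 v v1 v2).le⟩, Or.inl ⟨hu, fun v v1 v2 =>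
      ⟨h1 v v1 v2, (hai v v1 v2).trans (hu v v1 v2)⟩⟩⟩
  · have hd : Dn α β a' := by
      intro v v1 v2
      have w := ha'.mem hm v1 v2
      have h2 := (hup _ w.1 w.2).trans (h1 _ w.1 w.2)
      rwa [inv_smul_smul] at h2
    refine ⟨Or.inr ⟨hd, fun v v1 v2 => ((hd v v1 v2).trans (hup v v1 v2)).le⟩,
      Or.inr ⟨hd, fun v v1 v2 => ⟨(hd v v1 v2).trans (hup v v1 v2), ?_⟩⟩⟩
    have w := ha.inv.mem hm v1 v2
    have h2 := h1 _ w.1 w.2
    rw [smul_inv_smul] at h2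
    have h3 := (hm.lt a').mpr h2
    rwa [smul_inv_smul] at h3

/-- The signs of the slopes do not change. -/
theorem no_mixed (hm : Mono G X) (h : Sq y c s P Q) (hP : ∀ i, 2 * Q i ≤ P i) {n : ℕ}
    (hn : 1 ≤ n) (hclo : ∀ i, y (i + n) = y i) (hs : ∀ i, s (i + n) = s i)
    (hy : ∀ i, Fx α β (y i)) (hc : Fx α β c) {v0 : X} (hv1 : α < v0) (hv2 : v0 < β)
    {σ : ℕ → Bool} (hσ : ∀ i, (σ i = true → Up α β (y i)) ∧ (σ i = false → Dn α β (y i)))
    (i0 : ℕ) : s i0 = s (i0 + 1) := by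
  by_contra hne
  have key := signs hm h hn (Or.inl hclo) hy hc hv1 hv2 hσ
  have hne' : s (i0 + n) ≠ s (i0 + n + 1) := by
    have e : i0 + n + 1 = i0 + 1 + n := by ring
    rw [e, hs, hs]; exact hne
  have hσne : σ (i0 + n) ≠ σ (i0 + n + 1) := fun hh => hne' ((key (i0 + n)).mpr hh)
  -- the first step
  have first : ∀ i, i + 1 = i0 + n → St α β (y i) (y (i + 1)) ∧ Gt α β (y i) (y (i + 1)) := by
    intro i hi
    rw [← hi] at hσne
    rcases ha : σ (i + 1) with _ | _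
    · have hb : σ (i + 1 + 1) = true := by
        rw [ha] at hσne; cases hb : σ (i + 1 + 1) <;> simp_all
      have h1 : Up (X := Xᵒᵈ) β α (y (i + 1)) := fun v w1 w2 => (hσ (i + 1)).2 ha v w2 w1
      have h2 : Dn (X := Xᵒᵈ) β α (y (i + 2)) := fun v w1 w2 => (hσ (i + 2)).1 hb v w2 w1
      have := start_back_aux (X := Xᵒᵈ) hm.dual (h.pair i) (h.pair (i + 1)) (h.hQ (i + 1))
        (hP (i + 1)) (h.rel i) (hy i).dual (hy (i + 1)).dual (hy (i + 2)).dual hc.dual h1 h2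
      exact ⟨this.1.dual, this.2.dual⟩
    · have hb : σ (i + 1 + 1) = false := by
        rw [ha] at hσne; cases hb : σ (i + 1 + 1) <;> simp_all
      exact start_back_aux hm (h.pair i) (h.pair (i + 1)) (h.hQ (i + 1))
        (hP (i + 1)) (h.rel i) (hy i) (hy (i + 1)) (hy (i + 2)) hc ((hσ (i + 1)).1 ha)
        ((hσ (i + 2)).2 hb)
  have all : ∀ k i, i + k + 1 = i0 + n →
      St α β (y i) (y (i + 1)) ∧ Gt α β (y i) (y (i0 + n)) := by
    intro k
    induction k with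
    | zero =>
      intro i hi
      have := first i hi
      have e : i + 1 = i0 + n := hi
      rw [← e]; exact this
    | succ k ih =>
      intro i hi
      have h1 := ih (i + 1) (by omega)
      exact step_back hm (h.pair i) (h.pair (i + 1)) (h.hQ (i + 1)) (hP (i + 1)) (h.rel i)
        (hy i) (hy (i + 1)) (hy (i + 2)) hc (hy (i0 + n)) hv1 hv2 h1.1 h1.2
  obtain ⟨k, rfl⟩ := Nat.exists_eq_add_of_le' hn
  have h1 := (all k i0 (by ring)).2
  rw [hclo] at h1
  rcases h1 with ⟨-, h2⟩ | ⟨-, h2⟩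
  · exact lt_irrefl _ (h2 v0 hv1 hv2).1
  · exact lt_irrefl _ (h2 v0 hv1 hv2).1

theorem all_up_aux (hm : Mono G X) (h : Sq y c s P Q) (hP : ∀ i, 2 * Q i ≤ P i)
    (hs : ∀ i, s i = s (i + 1)) (hy : ∀ i, Fx α β (y i)) (hc : Fx α β c)
    (hup : ∀ i, Up α β (y i)) (i : ℕ) (v : X) (v1 : α < v) (v2 : v < β) :
    (y i)⁻¹ • y (i + 1) • v ≤ (y (i + 1))⁻¹ • y (i + 2) • v := by
  have hp := h.pair i
  have hp' := h.pair (i + 1)
  have hr := h.rel i
  have hQ := h.hQ (i + 1)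
  have hP1 := hP (i + 1)
  have ha := hy i
  have hb := hy (i + 1)
  have hub := hup (i + 1)
  have hs' := hs i
  have hcm := mel_comm hp hp'
  change Commute (y (i + 1)) (Mel (s i) (s (i + 1)) c (y i) (y (i + 2))) at hcm
  change Pair (s (i + 1)) c (y (i + 1)) (y (i + 2)) at hp'
  generalize y i = a at *
  generalize y (i + 1) = b at *
  generalize y (i + 2) = b' at *
  generalize s i = σ at *
  generalize s (i + 1) = σ' at *
  generalize P (i + 1) = P at *
  generalize Q (i + 1) = Q at *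
  subst hs'
  rw [hm.le_inv]
  cases σ
  · obtain ⟨e, -⟩ := mel_ff hp hp'
    have h1 := hm.dom2 hcm hQ hP1 hr (hub v v1 v2).le
    generalize Mel false false c a b' = M at *
    rw [e, mul_smul, mul_smul, mul_smul, hm.le, hm.le, hm.le_inv]
    exact h1
  · obtain ⟨e, -⟩ := mel_tt hp hp'
    have w1 := hb.mem hm v1 v2
    have w2 := ha.inv.mem hm w1.1 w1.2
    have w3 := hb.inv.mem hm w2.1 w2.2
    have h1 := hm.dom2 hcm hQ hP1 hr (hub _ w3.1 w3.2).le
    rw [smul_inv_smul] at h1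
    generalize Mel true true c a b' = M at *
    rw [e, mul_smul, mul_smul, mul_smul]
    exact h1

/-- In the untwisted case with all slopes of one sign the slopes are `2` or `-2`. -/
theorem no_strict (hm : Mono G X) (h : Sq y c s P Q) (hP : ∀ i, 2 * Q i ≤ P i) {n : ℕ}
    (hn : 1 ≤ n) (hclo : ∀ i, y (i + n) = y i)
    (hs : ∀ i, s i = s (i + 1)) (hy : ∀ i, Fx α β (y i)) (hc : Fx α β c)
    {v0 : X} (hv1 : α < v0) (hv2 : v0 < β)
    (hup : ∀ i, Up α β (y i)) (i : ℕ) : P (i + 1) ≤ 2 * Q (i + 1) := by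
  have mono := all_up_aux hm h hP hs hy hc hup
  -- equality
  have chain : ∀ m j v, α < v → v < β →
      (y j)⁻¹ • y (j + 1) • v ≤ (y (j + m))⁻¹ • y (j + m + 1) • v := by
    intro m
    induction m with
    | zero => intro j v _ _; exact le_rfl
    | succ m ih =>
      intro j v w1 w2
      exact (ih j v w1 w2).trans (mono (j + m) v w1 w2)
  have eq : ∀ v, α < v → v < β →
      (y (i + 1))⁻¹ • y (i + 2) • v = (y i)⁻¹ • y (i + 1) • v := by
    intro v w1 w2
    refine le_antisymm ?_ (mono i v w1 w2)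
    obtain ⟨k, hk⟩ := Nat.exists_eq_add_of_le' hn
    have h1 := chain k (i + 1) v w1 w2
    have e1 : i + 1 + k = i + n := by omega
    rw [e1] at h1
    have e2 : i + n + 1 = i + 1 + n := by omega
    rw [e2, hclo, hclo] at h1
    exact h1
  have hp := h.pair i
  have hp' := h.pair (i + 1)
  have hr := h.rel i
  have hQ := h.hQ (i + 1)
  have ha := hy i
  have hb := hy (i + 1)
  have hub := hup (i + 1)
  have hs' := hs i
  have hcm := mel_comm hp hp'
  have hM' := Fx.mel (σ := s i) (σ' := s (i + 1)) hc ha (hy (i + 2))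
  change Commute (y (i + 1)) (Mel (s i) (s (i + 1)) c (y i) (y (i + 2))) at hcm
  change Pair (s (i + 1)) c (y (i + 1)) (y (i + 2)) at hp'
  generalize y i = a at *
  generalize y (i + 1) = b at *
  generalize y (i + 2) = b' at *
  generalize s i = σ at *
  generalize s (i + 1) = σ' at *
  generalize P (i + 1) = P at *
  generalize Q (i + 1) = Q at *
  subst hs'
  -- `M` acts as `b ^ 2`
  have hM : ∀ w, α < w → w < β → Mel σ σ c a b' • w = b • b • w := by
    intro w w1 w2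
    cases σ
    · obtain ⟨e, -⟩ := mel_ff hp hp'
      have h1 := eq w w1 w2
      generalize Mel false false c a b' = M at *
      rw [e, mul_smul, mul_smul, mul_smul, inv_smul_smul] at h1
      have h2 := smul_left_cancel _ h1
      rw [inv_smul_eq_iff] at h2
      exact h2
    · obtain ⟨e, -⟩ := mel_tt hp hp'
      have u1 := hb.mem hm w1 w2
      have u2 := ha.mem hm u1.1 u1.2
      have u3 := hb.inv.mem hm u2.1 u2.2
      have h1 := eq _ u3.1 u3.2
      generalize Mel true true c a b' = M at *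
      rw [e, mul_smul, mul_smul, mul_smul, smul_inv_smul, inv_smul_smul, inv_smul_smul,
        inv_smul_eq_iff] at h1
      exact h1
  have hMp : ∀ k : ℕ, ∀ w, α < w → w < β → Mel σ σ c a b' ^ k • w = b ^ (2 * k) • w := by
    intro k
    induction k with
    | zero => intro w _ _; simp
    | succ k ih =>
      intro w w1 w2
      have u1 := hM'.mem hm w1 w2
      rw [pow_succ, mul_smul, ih _ u1.1 u1.2, hM w w1 w2, ← mul_smul, ← mul_smul, ← pow_succ,
        ← pow_succ]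
      congr 1
  obtain ⟨k, hk⟩ := Int.eq_ofNat_of_zero_le (show 0 ≤ Q by omega)
  have h1 := hMp k v0 hv1 hv2
  rw [← zpow_natCast, ← hk, hr, ← zpow_natCast] at h1
  by_contra hcon
  rw [not_le] at hcon
  have h2 : b ^ (P - 2 * Q) • v0 = v0 := by
    have h3 : b ^ (P - 2 * Q) = (b ^ (2 * Q))⁻¹ * b ^ P := by
      rw [← zpow_neg, ← zpow_add]; congr 1; ring
    rw [h3, mul_smul, h1, inv_smul_eq_iff]
    congr 1; rw [hk]; push_cast; rfl
  have h3 := hm.zroot_fix (show 1 ≤ P - 2 * Q by omega) h2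
  exact absurd (hub v0 hv1 hv2) (by rw [h3]; exact lt_irrefl _)

end J

section comp
variable {G X : Type*} [Group G] [CompleteLinearOrder X] [MulAction G X]

/-- The action is trivial if the sequence closes up without twist, unless all slopes are `2`
or all are `-2`. -/
theorem trivial_zero (hm : Mono G X) {y : ℕ → G} {c : G} {s : ℕ → Bool} {P Q : ℕ → ℤ}
    (h : Sq y c s P Q) (hP : ∀ i, 2 * Q i ≤ P i) {n : ℕ} (hn : 1 ≤ n)
    (hclo : ∀ i, y (i + n) = y i) (hs : ∀ i, s (i + n) = s i)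
    (hex : (∀ i, s i = s (i + 1)) → ∃ i, 2 * Q (i + 1) < P (i + 1)) (v : X) :
    c • v = v ∧ ∀ i, y i • v = v := by
  have hfix : ∀ (f : X) (j : ℕ), y j • f = f → c • f = f ∧ ∀ i, y i • f = f := fun f j hj =>
    fix_all hm h hn (Or.inl hclo) hj
  by_cases h0 : y 0 • v = v
  · exact hfix v 0 h0
  · exfalso
    obtain ⟨α, β, v1, v2, hy, hc, σ, hσ⟩ := exists_comp hm hfix h0
    have hsc : ∀ i, s i = s (i + 1) := no_mixed hm h hP hn hclo hs hy hc v1 v2 hσ
    have key := signs hm h hn (Or.inl hclo) hy hc v1 v2 hσ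
    obtain ⟨i, hi⟩ := hex hsc
    have hσc : ∀ j, σ j = σ 0 := by
      intro j
      induction j with
      | zero => rfl
      | succ j ih => rw [← (key j).mp (hsc j), ih]
    rcases hb : σ 0 with _ | _
    · have h1 : ∀ j, Up (X := Xᵒᵈ) β α (y j) := fun j v w1 w2 =>
        (hσ j).2 ((hσc j).trans hb) v w2 w1
      have := no_strict (X := Xᵒᵈ) hm.dual h hP hn hclo hsc (fun j => (hy j).dual) hc.dual
        (v0 := v) v2 v1 h1 i
      omega
    · have := no_strict hm h hP hn hclo hsc hy hc v1 v2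
        (fun j => (hσ j).1 ((hσc j).trans hb)) i
      omega

end comp

end Pool.Agent.TH744.Chain
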