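import Pool.Agent.TH744.LS.Sym
import Pool.Agent.TH744.Chain.Data
import Pool.Agent.TH744.Chain.Zero

set_option autoImplicit false
set_option linter.unusedSectionVars false

/-!
# The relations of a chain link in a left-ordered group
-/

namespace Pool.Agent.TH744.Chain

open Pool.Agent.TH744.LS (Mono inv_fix)

/-- The conditions on the slopes: `tw s t n` is the number of negative slopes minus the number
of positive clasps. -/
def Cond (n : ℕ) (t s : ℕ → Bool) (P q : ℕ → ℤ) : Prop :=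
  ((tw s t n = 1 ∨ tw s t n = -1) ∧
      ∀ i, (if s i = s (i + 1) then 2 else 1) * q (i + 1) ≤ P (i + 1)) ∨
    (tw s t n = 0 ∧ (∀ i, 2 * q i ≤ P i) ∧
      ((∀ i, s i = s (i + 1)) → ∃ i, 2 * q (i + 1) < P (i + 1)))

variable {H : Type*} [Group H]

theorem eq_one_of_hf {z : H} {u : ℤ} (h : (Hf (1 : H) ^ u) z = 1) : z = 1 := by
  have h1 : (Hf (1 : H)) 1 = 1 := by rw [Hf_apply]; simp
  have h2 : (Hf (1 : H) ^ (-u)) 1 = 1 :=
    Equiv.Perm.zpow_apply_eq_self_of_apply_eq_self h1 _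
  have h3 : (Hf (1 : H) ^ (-u)) ((Hf (1 : H) ^ u) z) = z := by
    rw [← Equiv.Perm.mul_apply, ← zpow_add, neg_add_cancel, zpow_zero, Equiv.Perm.one_apply]
  rw [← h3, h, h2]

open Pool.Agent.W705.Borr in
/-- In a left-ordered group the relations force triviality. -/
theorem Dat.trivial [LinearOrder H] (hinv : ∀ a b c : H, a ≤ b ↔ c * a ≤ c * b)
    {n : ℕ} (hn : 1 ≤ n) {a : ℕ → H} {c : H} {t s : ℕ → Bool} {p q : ℕ → ℤ}
    (h : Dat n a c t s p q) (hq : ∀ i, 1 ≤ q i)
    (hc : Cond n t s (fun i => if s i then p i else - p i) q) :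
    c = 1 ∧ ∀ i, a i = 1 := by
  letI : MulAction H (LowerSet H) :=
    { smul := fun g v => act hinv g v
      one_smul := fun v => act_one hinv v
      mul_smul := fun g k v => act_mul hinv g k v }
  have hm : Mono H (LowerSet H) := fun g u v huv => by
    show act hinv g u < act hinv g v
    exact (act hinv g).lt_iff_lt.mpr huv
  have key : ∀ v : LowerSet H, c • v = v ∧ ∀ i, nor c s t a i • v = v := by
    rcases hc with ⟨hd, hp⟩ | ⟨hd, hp, hex⟩
    · exact fun v => trivial_half hm (h.sq hq hp) hn (h.clo_half hd) h.ps v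
    · refine fun v => trivial_zero hm (h.sq hq fun i => ?_) hp hn (h.clo_zero hd) h.ps hex v
      have h1 := hp (i + 1)
      have h2 := hq (i + 1)
      refine le_trans ?_ h1
      split_ifs <;> linarith
  have hc1 : c = 1 := eq_one_of_act hinv c fun v => (key v).1
  refine ⟨hc1, fun i => ?_⟩
  have h1 : nor c s t a i = 1 := eq_one_of_act hinv _ fun v => (key v).2 i
  unfold nor at h1
  rw [hc1] at h1
  exact eq_one_of_hf h1

/-- The relations of the meridians of the two arcs of every circle of a chain link. `e i` is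
`true` if the clasp of circles `i` and `i + 1` is positive. -/
structure Dia (n : ℕ) (o m : ℕ → H) (e : ℕ → Bool) (p q : ℕ → ℤ) : Prop where
  out : ∀ i, if e i then (o i)⁻¹ * m (i + 1) * o i * (o (i + 1))⁻¹ = 1
    else o (i + 1) * o i * (o (i + 1))⁻¹ * (m i)⁻¹ = 1
  inn : ∀ i, if e i then (m (i + 1))⁻¹ * o i * m (i + 1) * (m i)⁻¹ = 1
    else m i * m (i + 1) * (m i)⁻¹ * (o (i + 1))⁻¹ = 1
  rel : ∀ i, o (i + 1) ^ p (i + 1) *
    ((if e (i + 1) then m (i + 2) else (o (i + 2))⁻¹) *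
      (if e i then o i else (m i)⁻¹)) ^ q (i + 1) = 1
  po : ∀ i, o (i + n) = o i
  pe : ∀ i, e (i + n) = e i
  pp : ∀ i, p (i + n) = p i

variable {n : ℕ} {o m : ℕ → H} {e : ℕ → Bool} {p q : ℕ → ℤ}

theorem Dia.c_const (h : Dia n o m e p q) (i : ℕ) : (o i)⁻¹ * m i = (o 0)⁻¹ * m 0 := by
  induction i with
  | zero => rfl
  | succ i ih =>
    rw [← ih]
    have h1 := h.out i
    have h2 := h.inn i
    cases he : e i
    · rw [he] at h1 h2
      simp only [Bool.false_eq_true, if_false] at h1 h2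
      have e1 : m i = o (i + 1) * o i * (o (i + 1))⁻¹ := (mul_inv_eq_one.mp h1).symm
      have e2 : m (i + 1) = (m i)⁻¹ * o (i + 1) * m i := by
        have : o (i + 1) = m i * m (i + 1) * (m i)⁻¹ := (mul_inv_eq_one.mp h2).symm
        rw [this]; group
      have e3 : (m i)⁻¹ = o (i + 1) * (o i)⁻¹ * (o (i + 1))⁻¹ := by rw [e1]; group
      rw [e2]
      nth_rewrite 1 [e3]
      group
    · rw [he] at h1 h2
      simp only [if_true] at h1 h2
      have e1 : m (i + 1) = o i * o (i + 1) * (o i)⁻¹ := by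
        have : o (i + 1) = (o i)⁻¹ * m (i + 1) * o i := (mul_inv_eq_one.mp h1).symm
        rw [this]; group
      have e2 : m i = (m (i + 1))⁻¹ * o i * m (i + 1) := (mul_inv_eq_one.mp h2).symm
      have e3 : (m (i + 1))⁻¹ = o i * (o (i + 1))⁻¹ * (o i)⁻¹ := by rw [e1]; group
      rw [e2, e3]
      group

theorem Dia.m_eq (h : Dia n o m e p q) (i : ℕ) : m i = o i * ((o 0)⁻¹ * m 0) := by
  rw [← h.c_const i]; group

theorem Dia.dat (h : Dia n o m e p q) :
    Dat n (fun i => (o i)⁻¹) ((o 0)⁻¹ * m 0) (fun i => !e i) (fun i => decide (0 < p i)) p q := by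
  have hm := h.m_eq
  have hcc := h.c_const
  generalize (o 0)⁻¹ * m 0 = c at *
  refine ⟨fun i => ?_, fun i => ?_, fun i => ?_, fun i => ?_, fun i => ?_⟩
  · have h1 := h.out i
    cases he : e i
    · rw [he] at h1
      simp only [Bool.false_eq_true, if_false] at h1
      have e1 : m i = o (i + 1) * o i * (o (i + 1))⁻¹ := (mul_inv_eq_one.mp h1).symm
      show c = (o i)⁻¹ * (o (i + 1))⁻¹⁻¹ * (o i)⁻¹⁻¹ * (o (i + 1))⁻¹
      rw [← hcc i, e1]; group
    · rw [he] at h1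
      simp only [if_true] at h1
      have e1 : m (i + 1) = o i * o (i + 1) * (o i)⁻¹ := by
        have : o (i + 1) = (o i)⁻¹ * m (i + 1) * o i := (mul_inv_eq_one.mp h1).symm
        rw [this]; group
      show c = (o (i + 1))⁻¹ * (o i)⁻¹⁻¹ * (o (i + 1))⁻¹⁻¹ * (o i)⁻¹
      rw [← hcc (i + 1), e1]; group
  · have h1 := h.rel i
    have e1 : (Lf (!e i) c (o i)⁻¹ * Rf (!e (i + 1)) c (o (i + 2))⁻¹) =
        ((if e (i + 1) then m (i + 2) else (o (i + 2))⁻¹) * (if e i then o i else (m i)⁻¹))⁻¹ := by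
      cases he : e i <;> cases he' : e (i + 1)
      · show (o i)⁻¹⁻¹ * c * (o (i + 2))⁻¹⁻¹ = ((o (i + 2))⁻¹ * (m i)⁻¹)⁻¹
        rw [hm i]; group
      · show (o i)⁻¹⁻¹ * c * (c⁻¹ * (o (i + 2))⁻¹) = (m (i + 2) * (m i)⁻¹)⁻¹
        rw [hm i, hm (i + 2)]; group
      · show (o i)⁻¹ * (o (i + 2))⁻¹⁻¹ = ((o (i + 2))⁻¹ * o i)⁻¹
        group
      · show (o i)⁻¹ * (c⁻¹ * (o (i + 2))⁻¹) = (m (i + 2) * o i)⁻¹
        rw [hm (i + 2)]; group
    show (o (i + 1))⁻¹ ^ p (i + 1) *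
      (Lf (!e i) c (o i)⁻¹ * Rf (!e (i + 1)) c (o (i + 2))⁻¹) ^ q (i + 1) = 1
    rw [e1, inv_zpow, inv_zpow, ← mul_inv_rev, inv_eq_one, mul_eq_one_iff_inv_eq]
    exact (eq_inv_of_mul_eq_one_left h1).symm ▸ rfl
  · show (o (i + n))⁻¹ = (o i)⁻¹
    rw [h.po]
  · show (!e (i + n)) = !e i
    rw [h.pe]
  · show decide (0 < p (i + n)) = decide (0 < p i)
    rw [h.pp]

end Pool.Agent.TH744.Chain
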