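import Pool.Agent.TH744.Chain.Cone

set_option autoImplicit false
set_option linter.unusedSectionVars false

/-!
# Sequences of meridians along a chain link: growth
-/

namespace Pool.Agent.TH744.Chain

open Pool.Agent.TH744.LS (Mono inv_fix)

section
variable {G X : Type*} [Group G] [LinearOrder X] [MulAction G X]

/-- The meridians `y i` along the chain (normalised so that consecutive meridians point in the
same direction when they grow), the signs `s i` of the slopes and the absolute values
`P i / Q i` of the slopes. -/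
structure Sq (y : ℕ → G) (c : G) (s : ℕ → Bool) (P Q : ℕ → ℤ) : Prop where
  pair : ∀ i, Pair (s i) c (y i) (y (i + 1))
  hQ : ∀ i, 1 ≤ Q i
  hP : ∀ i, (if s i = s (i + 1) then 2 else 1) * Q (i + 1) ≤ P (i + 1)
  rel : ∀ i, Mel (s i) (s (i + 1)) c (y i) (y (i + 2)) ^ Q (i + 1) = y (i + 1) ^ P (i + 1)

/-- The sequence closes up after `n` steps, up to at most half a twist. -/
def Clo (n : ℕ) (y : ℕ → G) (c : G) : Prop :=
  (∀ i, y (i + n) = y i) ∨ (∀ i, y (i + n) = c * (y i)⁻¹) ∨ (∀ i, y (i + n) = (y i)⁻¹ * c)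

variable {y : ℕ → G} {c : G} {s : ℕ → Bool} {P Q : ℕ → ℤ}

theorem growA (hm : Mono G X) (h : Sq y c s P Q) {f : X} {j : ℕ}
    (H : CA (s j) f (y j) (y (j + 1))) (m : ℕ) :
    CA (s (j + m)) f (y (j + m)) (y (j + m + 1)) := by
  induction m with
  | zero => exact H
  | succ m ih =>
    exact stepA hm (h.pair (j + m)) (h.pair (j + m + 1)) (h.hQ _) (h.hP _) (h.rel (j + m)) ih

theorem growB (hm : Mono G X) (h : Sq y c s P Q) {f : X} {j : ℕ}
    (H : CB (s j) f (y j) (y (j + 1))) (m : ℕ) :
    CB (s (j + m)) f (y (j + m)) (y (j + m + 1)) := by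
  induction m with
  | zero => exact H
  | succ m ih =>
    exact stepB hm (h.pair (j + m)) (h.pair (j + m + 1)) (h.hQ _) (h.hP _) (h.rel (j + m)) ih

/-- At a fixed point of `y j`, the next meridian does not move up. -/
theorem not_up_of_fix (hm : Mono G X) (h : Sq y c s P Q) {n : ℕ} (hn : 1 ≤ n)
    (hclo : Clo n y c) {f : X} {j : ℕ} (hj : y j • f = f) (hu : f < y (j + 1) • f) : False := by
  have hji : (y j)⁻¹ • f = f := inv_fix hj
  have e : j + n + 1 = j + 1 + n := by ring
  have hpair := h.pair j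
  obtain ⟨k, rfl⟩ := Nat.exists_eq_add_of_le' hn
  rcases hs : s j with _ | _
  · -- type false: second growth condition
    have base : CB (s j) f (y j) (y (j + 1)) :=
      ⟨hj.ge, by rw [hj]; exact hu.le, hu, by rw [hs]; simp⟩
    have g0 : f < y (j + (k + 1)) • f := (growB hm h base k).c0
    have g1 := (growB hm h base (k + 1)).c2
    rw [e] at g1
    rw [hs] at hpair
    have hc : c = y (j + 1) * (y j)⁻¹ * (y (j + 1))⁻¹ * y j := hpair
    rcases hclo with hd | hd | hd
    · rw [hd, hj] at g0; exact lt_irrefl _ g0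
    · rw [hd, hd, mul_smul, mul_smul, hji, hm.le, hm.le_inv] at g1
      exact absurd hu (not_lt.mpr g1)
    · rw [hd] at g0
      rw [hd, hd] at g1
      have e1 : (y (j + 1))⁻¹ * c = (y j)⁻¹ * (y (j + 1))⁻¹ * y j := by rw [hc]; group
      have g2 : ((y (j + 1))⁻¹ * c) • f < f := by
        rw [e1, mul_smul, mul_smul, hj, hm.inv_lt, hj, hm.inv_lt]; exact hu
      exact absurd (lt_of_lt_of_le g0 g1) (not_lt.mpr g2.le)
  · -- type true: first growth condition
    have base : CA (s j) f (y j) (y (j + 1)) :=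
      ⟨hj.ge, by rw [hji]; exact hu.le, hu, by rw [hs]; simp⟩
    have g0 : f < y (j + (k + 1)) • f := (growA hm h base k).c0
    have g1 := (growA hm h base (k + 1)).c2
    rw [e] at g1
    rw [hs] at hpair
    have hc : c = y j * (y (j + 1))⁻¹ * (y j)⁻¹ * y (j + 1) := hpair
    rcases hclo with hd | hd | hd
    · rw [hd, hj] at g0; exact lt_irrefl _ g0
    · rw [hd, mul_smul, hji] at g0
      rw [hd, hd, ← mul_smul] at g1
      have e1 : c * (y (j + 1))⁻¹ * (c * (y j)⁻¹)⁻¹ = y j * (y (j + 1))⁻¹ * c⁻¹ := by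
        have e2 : c * (y (j + 1))⁻¹ * y j = y j * (y (j + 1))⁻¹ := by rw [hc]; group
        calc c * (y (j + 1))⁻¹ * (c * (y j)⁻¹)⁻¹ = (c * (y (j + 1))⁻¹ * y j) * c⁻¹ := by group
          _ = _ := by rw [e2]
      rw [e1, mul_smul, mul_smul, ← hm.inv_le, hji, hm.le_inv] at g1
      have g2 : f < c⁻¹ • f := lt_of_lt_of_le hu g1
      have g3 := (hm.lt c).mpr g2
      rw [smul_inv_smul] at g3
      exact absurd g0 (not_lt.mpr g3.le)
    · rw [hd, hd, ← mul_smul] at g1
      have e1 : (y (j + 1))⁻¹ * c * ((y j)⁻¹ * c)⁻¹ = (y (j + 1))⁻¹ * y j := by group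
      rw [e1, mul_smul, hj, hm.le_inv] at g1
      exact absurd hu (not_lt.mpr g1)

theorem fix_next (hm : Mono G X) (h : Sq y c s P Q) {n : ℕ} (hn : 1 ≤ n)
    (hclo : Clo n y c) {f : X} {j : ℕ} (hj : y j • f = f) : y (j + 1) • f = f := by
  rcases lt_trichotomy (y (j + 1) • f) f with h1 | h1 | h1
  · exact (not_up_of_fix (X := Xᵒᵈ) hm.dual h hn hclo (f := f) hj h1).elim
  · exact h1
  · exact (not_up_of_fix hm h hn hclo hj h1).elim

theorem fix_c (h : Sq y c s P Q) {f : X} {j : ℕ} (hj : y j • f = f)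
    (hj1 : y (j + 1) • f = f) : c • f = f := by
  have hji := inv_fix hj
  have hj1i := inv_fix hj1
  have hp := h.pair j
  rcases hs : s j with _ | _
  · rw [hs] at hp
    rw [show c = _ from hp, mul_smul, mul_smul, mul_smul, hj, hj1i, hji, hj1]
  · rw [hs] at hp
    rw [show c = _ from hp, mul_smul, mul_smul, mul_smul, hj1, hji, hj1i, hj]

/-- A fixed point of one meridian is fixed by all. -/
theorem fix_all (hm : Mono G X) (h : Sq y c s P Q) {n : ℕ} (hn : 1 ≤ n)
    (hclo : Clo n y c) {f : X} {j : ℕ} (hj : y j • f = f) :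
    c • f = f ∧ ∀ i, y i • f = f := by
  have up : ∀ m, y (j + m) • f = f := by
    intro m
    induction m with
    | zero => exact hj
    | succ m ih => exact fix_next hm h hn hclo ih
  have hc : c • f = f := fix_c h hj (up 1)
  refine ⟨hc, ?_⟩
  have back : ∀ i, y (i + n) • f = f → y i • f = f := by
    intro i hi
    rcases hclo with hd | hd | hd
    · rwa [hd] at hi
    · have e : y i = (y (i + n))⁻¹ * c := by rw [hd]; group
      rw [e, mul_smul, hc]; exact inv_fix hi
    · have e : y i = c * (y (i + n))⁻¹ := by rw [hd]; group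
      rw [e, mul_smul, inv_fix hi, hc]
  have back2 : ∀ m i, y (i + m * n) • f = f → y i • f = f := by
    intro m
    induction m with
    | zero => intro i hi; simpa using hi
    | succ m ih =>
      intro i hi
      refine ih i (back _ ?_)
      have : i + m * n + n = i + (m + 1) * n := by ring
      rw [this]; exact hi
  intro i
  refine back2 j i ?_
  have h1 : j ≤ i + j * n := le_trans (Nat.le_mul_of_pos_right j hn) (Nat.le_add_left _ _)
  obtain ⟨k, hk⟩ := Nat.exists_eq_add_of_le h1
  rw [hk]; exact up k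

end

section J
variable {G X : Type*} [Group G] [LinearOrder X] [MulAction G X]

/-- `g` moves all points between `α` and `β` up. -/
def Up (α β : X) (g : G) : Prop := ∀ v, α < v → v < β → v < g • v

/-- `g` moves all points between `α` and `β` down. -/
def Dn (α β : X) (g : G) : Prop := ∀ v, α < v → v < β → g • v < v

/-- `g` fixes `α` and `β`. -/
def Fx (α β : X) (g : G) : Prop := g • α = α ∧ g • β = β

variable {α β : X}

theorem Fx.mul {g k : G} (hg : Fx α β g) (hk : Fx α β k) : Fx α β (g * k) :=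
  ⟨by rw [mul_smul, hk.1, hg.1], by rw [mul_smul, hk.2, hg.2]⟩

theorem Fx.inv {g : G} (hg : Fx α β g) : Fx α β g⁻¹ := ⟨inv_fix hg.1, inv_fix hg.2⟩

theorem Fx.mem (hm : Mono G X) {g : G} (hg : Fx α β g) {v : X} (h1 : α < v) (h2 : v < β) :
    α < g • v ∧ g • v < β := by
  constructor
  · have := (hm.lt g).mpr h1; rwa [hg.1] at this
  · have := (hm.lt g).mpr h2; rwa [hg.2] at this

theorem Dn.inv_up (hm : Mono G X) {g : G} (h : Dn α β g) : Up α β g⁻¹ := by
  intro v h1 h2
  rw [← hm.lt g, smul_inv_smul]; exact h v h1 h2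

variable {y : ℕ → G} {c : G} {s : ℕ → Bool} {P Q : ℕ → ℤ}

theorem Fx.mel {σ σ' : Bool} {c a b' : G} (hc : Fx α β c) (ha : Fx α β a) (hb : Fx α β b') :
    Fx α β (Mel σ σ' c a b') := by
  cases σ <;> cases σ'
  · exact (ha.mul hc.inv).mul hb
  · exact hb.mul ha.inv
  · exact ha.inv.mul hb
  · exact (hb.mul hc.inv).mul ha

/-- Strict growth at a weak vertex. -/
theorem fw (hm : Mono G X) (h : Sq y c s P Q) (hy : ∀ i, Fx α β (y i)) (hc : Fx α β c)
    {i : ℕ} (h1 : Up α β (y (i + 1)))
    (h0 : (s i = s (i + 1) ∧ Dn α β (y i)) ∨ (s i ≠ s (i + 1) ∧ Up α β (y i))) :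
    ∀ v, α < v → v < β → y (i + 1) • v < y (i + 2) • v := by
  intro v v1 v2
  have hp := h.pair i
  have hp' := h.pair (i + 1)
  have hr := h.rel i
  have hP := h.hP i
  have hQ := h.hQ (i + 1)
  have ha := hy i
  have hb := hy (i + 1)
  have hb' := hy (i + 2)
  have hM := Fx.mel (σ := s i) (σ' := s (i + 1)) hc ha hb'
  have hcm := mel_comm hp hp'
  change Commute (y (i + 1)) (Mel (s i) (s (i + 1)) c (y i) (y (i + 2))) at hcm
  change Pair (s (i + 1)) c (y (i + 1)) (y (i + 2)) at hp'
  generalize y i = a at *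
  generalize y (i + 1) = b at *
  generalize y (i + 2) = b' at *
  generalize s i = σ at *
  generalize s (i + 1) = σ' at *
  generalize P (i + 1) = P at *
  generalize Q (i + 1) = Q at *
  have hbv := h1 v v1 v2
  have dom1 : Q ≤ P := by
    have h2 : (1 : ℤ) ≤ (if σ = σ' then 2 else 1) := by split_ifs <;> norm_num
    nlinarith
  -- `M` is at least `b`
  have hMb : ∀ w, α < w → w < β → b • w ≤ Mel σ σ' c a b' • w := fun w w1 w2 =>
    hm.dom1 hcm hQ dom1 hr (h1 w w1 w2).le
  rcases h0 with ⟨hs, hdn⟩ | ⟨hs, hup⟩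
  · have hai := hdn.inv_up hm
    subst hs
    cases σ
    · obtain ⟨e, -⟩ := mel_ff hp hp'
      generalize Mel false false c a b' = M at *
      rw [e, mul_smul, mul_smul, mul_smul, hm.lt]
      have w1 := hM.mem hm v1 v2
      have w2 := hb.inv.mem hm w1.1 w1.2
      refine lt_of_le_of_lt ?_ (hai _ w2.1 w2.2)
      rw [hm.le_inv]
      have := hm.dom2 hcm hQ (by simpa using hP) hr hbv.le
      exact ((hm.lt b).mpr hbv).le.trans this
    · obtain ⟨e, -⟩ := mel_tt hp hp'
      generalize Mel true true c a b' = M at *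
      have w1 := hb.mem hm v1 v2
      have h3 : v < b⁻¹ • a⁻¹ • b • v := by
        rw [← hm.lt b, smul_inv_smul]; exact hai _ w1.1 w1.2
      rw [e, mul_smul, mul_smul, mul_smul]
      exact lt_of_le_of_lt (hMb v v1 v2) ((hm.lt M).mpr h3)
  · have hne : σ' = !σ := by cases σ <;> cases σ' <;> simp_all
    subst hne
    cases σ
    · obtain ⟨e, -⟩ := mel_ft hp hp'
      change b • v < b' • v
      have hMb' : b • v ≤ Mel false true c a b' • v := hMb v v1 v2
      generalize Mel false true c a b' = M at *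
      rw [e, mul_smul]
      exact lt_of_le_of_lt hMb' ((hm.lt M).mpr (hup v v1 v2))
    · obtain ⟨e, -⟩ := mel_tf hp hp'
      change b • v < b' • v
      have hMb' : b • v ≤ Mel true false c a b' • v := hMb v v1 v2
      have hM' : Fx α β (Mel true false c a b') := hM
      generalize Mel true false c a b' = M at *
      rw [e, mul_smul]
      have w1 := hM'.mem hm v1 v2
      exact lt_of_le_of_lt hMb' (hup _ w1.1 w1.2)

end J

end Pool.Agent.TH744.Chain
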